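import Pool.Agent.H211.LD.Lines

/-! The final forms. -/

set_option autoImplicit false

open Filter Topology Metric Set MeasureTheory Polynomial
open scoped ENNReal Pointwise

namespace Pool.Agent.H211.LD

open Pool.Agent.X325.EP
open Pool.Agent.H792R2.CE Pool.Agent.H792R2

/-- the proportion of the set `B` in the disc of radius `2 ^ (- k)` in the direction `b` -/
noncomputable def propLine {n : ℕ} (B : Set (Fin n → ℂ)) (a₀ b : Fin n → ℂ) (k : ℕ) : ℝ≥0∞ :=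
  volume {s : ℂ | s ∈ ball (0 : ℂ) ((1 / 2) ^ k) ∧ a₀ + s • b ∈ B} /
    volume (ball (0 : ℂ) ((1 / 2) ^ k))

theorem propLine_le {n : ℕ} (B : Set (Fin n → ℂ)) (a₀ b : Fin n → ℂ) (k : ℕ) :
    propLine B a₀ b k ≤ 1 := by
  unfold propLine
  apply ENNReal.div_le_of_le_mul
  rw [one_mul]
  exact measure_mono fun s hs => hs.1

theorem propLine_lin {n : ℕ} {B : Set (Fin n → ℂ)} {a₀ b : Fin n → ℂ} {r₀ : ℝ} (hr₀ : 0 < r₀) :
    ∃ k₀ : ℕ, ∀ k ≥ k₀, propLine B a₀ b (k + 1) ≤ 1 * lin B a₀ r₀ k b := by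
  obtain ⟨k₀, hk₀⟩ := exists_pow_lt_of_lt_one (show 0 < r₀ / (‖b‖ + 1) by positivity)
    (by norm_num : (1 / 2 : ℝ) < 1)
  refine ⟨k₀, fun k hk => ?_⟩
  rw [one_mul]
  unfold propLine lin
  have h1 : {s : ℂ | s ∈ ball (0 : ℂ) ((1 / 2) ^ (k + 1)) ∧ a₀ + s • b ∈ B} ⊆
      {s : ℂ | ‖s‖ < (1 / 2) ^ (k + 1) ∧ a₀ + s • b ∈ B ∩ ball a₀ r₀} := by
    rintro s ⟨hs, hsB⟩
    rw [mem_ball_zero_iff] at hs
    refine ⟨hs, hsB, ?_⟩
    rw [mem_ball, dist_eq_norm, add_sub_cancel_left, norm_smul]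
    have h2 : ‖s‖ < r₀ / (‖b‖ + 1) := by
      refine hs.trans_le (le_trans ?_ hk₀.le)
      exact pow_le_pow_of_le_one (by norm_num) (by norm_num) (by omega)
    rw [lt_div_iff₀ (by positivity)] at h2
    nlinarith [norm_nonneg s, norm_nonneg b]
  have h2 : ENNReal.ofReal (((1 / 2 : ℝ) ^ (k + 1)) ^ 2) ≤
      volume (ball (0 : ℂ) ((1 / 2) ^ (k + 1))) := by
    rw [Complex.volume_ball, ← ENNReal.ofReal_pow (by positivity)]
    have : (NNReal.pi : ℝ≥0∞) = ENNReal.ofReal Real.pi := by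
      rw [← NNReal.coe_real_pi, ENNReal.ofReal_coe_nnreal]
    rw [this]
    calc ENNReal.ofReal (((1 / 2 : ℝ) ^ (k + 1)) ^ 2)
        = ENNReal.ofReal (((1 / 2 : ℝ) ^ (k + 1)) ^ 2) * 1 := by rw [mul_one]
      _ ≤ _ := by
          gcongr
          rw [← ENNReal.ofReal_one]
          apply ENNReal.ofReal_le_ofReal
          have := Real.pi_gt_three
          linarith
  exact ENNReal.div_le_div (measure_mono h1) h2

/-- averages along the times `n / Q` with `n` arbitrary -/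
theorem tendsto_of_div {x : ℕ → ℝ≥0∞} {Q : ℕ} (hQ : 0 < Q)
    (h : ∀ δ : ℝ≥0∞, 0 < δ → ∃ N₀, ∀ n ≥ N₀, x (n / Q) ≤ δ) : Tendsto x atTop (𝓝 0) := by
  rw [ENNReal.tendsto_atTop_zero]
  intro ε hε
  obtain ⟨N₀, hN₀⟩ := h ε hε
  refine ⟨N₀, fun n hn => ?_⟩
  have h1 := hN₀ (Q * n) (hn.trans (Nat.le_mul_of_pos_left n hQ))
  rwa [Nat.mul_div_cancel_left n hQ] at h1

/-- the finitely many critical points have a common rate -/
theorem common_rate {S : Finset ℂ} {p : ℂ → ℝ → ℕ → Prop}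
    (hp : ∀ c μ μ' n, 1 < μ' → μ' ≤ μ → p c μ n → p c μ' n)
    (h : ∀ c ∈ S, ∃ μ : ℝ, 1 < μ ∧ ∀ᶠ n in atTop, p c μ n) :
    ∃ μ : ℝ, 1 < μ ∧ ∀ᶠ n in atTop, ∀ c ∈ S, p c μ n := by
  classical
  induction S using Finset.induction_on with
  | empty => exact ⟨2, by norm_num, by simp⟩
  | insert c S hc ih =>
    obtain ⟨μ₁, h1, h2⟩ := ih fun c' hc' => h c' (Finset.mem_insert_of_mem hc')
    obtain ⟨μ₂, h3, h4⟩ := h c (Finset.mem_insert_self _ _)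
    refine ⟨min μ₁ μ₂, lt_min h1 h3, ?_⟩
    filter_upwards [h2, h4] with n h5 h6 c' hc'
    rcases Finset.mem_insert.1 hc' with h7 | h7
    · rw [h7]
      exact hp _ _ _ _ (lt_min h1 h3) (min_le_right _ _) h6
    · exact hp _ _ _ _ (lt_min h1 h3) (min_le_left _ _) (h5 c' h7)

theorem crit_finite {d : ℕ} (hd : 2 ≤ d) {a₀ : Fin (d + 1) → ℂ} (h0 : a₀ (Fin.last d) ≠ 0) :
    ∃ S : Finset ℂ, ∀ c, c ∈ S ↔ deriv (ev a₀) c = 0 := by
  have hP0 : derivative (pol a₀) ≠ 0 := by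
    intro h
    have h1 := Polynomial.derivative_eq_zero.1 h
    rw [pol_natDegree h0] at h1
    omega
  refine ⟨(derivative (pol a₀)).roots.toFinset, fun c => ?_⟩
  rw [Multiset.mem_toFinset, Polynomial.mem_roots hP0, IsRoot.def, deriv_ev]

/-- Collet-Eckmann polynomials expand at all late times -/
theorem ce_gr {A : (ℂ → ℂ) → ℂ → Prop} {d : ℕ} (hd : 2 ≤ d)
    {a₀ : Fin (d + 1) → ℂ} (h0 : a₀ (Fin.last d) ≠ 0)
    (hCE : ∀ c : ℂ, deriv (ev a₀) c = 0 → A (ev a₀) c ∨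
      ∃ μ : ℝ, 1 < μ ∧ ∀ᶠ n : ℕ in atTop, μ ^ n ≤ ‖deriv ((ev a₀)^[n]) (ev a₀ c)‖) :
    (∃ μ : ℝ, 1 < μ ∧ ∀ᶠ n : ℕ in atTop, GrE A a₀ μ n) ∧
    ∀ c : ℂ, deriv (ev a₀) c = 0 → A (ev a₀) c ∨ deriv (deriv (ev a₀)) c = 0 ∨
        Summable fun m => ‖deriv ((ev a₀)^[m]) (ev a₀ c)‖⁻¹ := by
  constructor
  · obtain ⟨S, hS⟩ := crit_finite hd h0
    obtain ⟨μ, hμ, h1⟩ := common_rate (S := S) (p := fun c μ n => A (ev a₀) c ∨
      μ ^ n ≤ ‖deriv ((ev a₀)^[n]) (ev a₀ c)‖)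
      (by
        rintro c μ μ' n h1 h2 (h3 | h3)
        · exact Or.inl h3
        · exact Or.inr ((pow_le_pow_left₀ (by linarith) h2 n).trans h3))
      (by
        intro c hc
        rcases hCE c ((hS c).1 hc) with h | ⟨μ, hμ, h⟩
        · exact ⟨2, by norm_num, Eventually.of_forall fun n => Or.inl h⟩
        · exact ⟨μ, hμ, h.mono fun n hn => Or.inr hn⟩)
    refine ⟨μ, hμ, h1.mono fun n hn c hc => ?_⟩
    rcases hn c ((hS c).2 hc) with h | h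
    · exact Or.inl h
    · exact Or.inr ⟨n, le_rfl, h⟩
  · intro c hc
    rcases hCE c hc with h | ⟨μ, hμ, h⟩
    · exact Or.inl h
    · refine Or.inr (Or.inr ?_)
      have h1 : Summable fun n : ℕ => (μ⁻¹) ^ n :=
        summable_geometric_of_lt_one (by positivity) (inv_lt_one_of_one_lt₀ hμ)
      refine Summable.of_norm_bounded_eventually_nat h1 ?_
      filter_upwards [h] with n hn
      rw [norm_inv, norm_norm, inv_pow]
      have : 0 < μ ^ n := by positivity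
      exact inv_anti₀ this hn

/-- **Collet-Eckmann polynomials.** -/
theorem ce_final {A : (ℂ → ℂ) → ℂ → Prop} (hA : PredE A) {d : ℕ} (hd : 2 ≤ d)
    {a₀ : Fin (d + 1) → ℂ} (h0 : a₀ (Fin.last d) ≠ 0)
    (hnull : volume {z : ℂ | ¬ A (ev a₀) z} = 0)
    (hCE : ∀ c : ℂ, deriv (ev a₀) c = 0 → A (ev a₀) c ∨
      ∃ μ : ℝ, 1 < μ ∧ ∀ᶠ n : ℕ in atTop, μ ^ n ≤ ‖deriv ((ev a₀)^[n]) (ev a₀ c)‖) :
    (∃ 𝒱 : Finset (Submodule ℂ (Fin (d + 1) → ℂ)), 𝒱.card ≤ 2 * (d - 1) ∧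
      (∀ V ∈ 𝒱, V ≠ ⊤) ∧
      ∀ b : Fin (d + 1) → ℂ, (∀ V ∈ 𝒱, b ∉ V) →
        Tendsto (fun N => avg (propLine (bad A d) a₀ b) N) atTop (𝓝 0)) ∧
    Tendsto (fun N => avg (prop (bad A d) a₀) N) atTop (𝓝 0) := by
  obtain ⟨⟨μ, hμ, hgr⟩, hsimple⟩ := ce_gr hd h0 hCE
  obtain ⟨𝒱, h𝒱1, h𝒱2, h𝒱3⟩ := lines hA hd h0 hnull hμ hgr.frequently hsimple
  obtain ⟨r₀, hr₀, hmeas⟩ := bad_meas hA hd h0
  have hlin : ∀ b : Fin (d + 1) → ℂ, (∀ V ∈ 𝒱, b ∉ V) →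
      Tendsto (fun N => avg (fun k => lin (bad A d) a₀ r₀ k b) N) atTop (𝓝 0) := by
    intro b hb
    obtain ⟨q, hq, h1⟩ := h𝒱3 b hb
    refine tendsto_of_div hq fun δ hδ => ?_
    obtain ⟨N₀, hN₀⟩ := line_avg hq (h1 q le_rfl) r₀ hδ
    obtain ⟨N₁, hN₁⟩ := Filter.eventually_atTop.1 hgr
    exact ⟨max N₀ N₁, fun n hn => hN₀ n ((le_max_left _ _).trans hn)
      (hN₁ n ((le_max_right _ _).trans hn))⟩
  refine ⟨⟨𝒱, h𝒱1, h𝒱2, fun b hb => ?_⟩, ?_⟩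
  · obtain ⟨k₀, hk₀⟩ := propLine_lin (B := bad A d) (a₀ := a₀) (b := b) hr₀
    exact avg_shift_tendsto ENNReal.one_ne_top (propLine_le _ _ _) hk₀ (hlin b hb)
  · obtain ⟨C, hC, k₀, hk₀⟩ := ball_prop hr₀ hmeas
    refine avg_shift_tendsto hC (prop_le _ _) hk₀ ?_
    have hfin : IsFiniteMeasure ((volume : Measure (Fin (d + 1) → ℂ)).restrict (ball 0 1)) :=
      ⟨by rw [Measure.restrict_apply_univ]; exact measure_ball_lt_top⟩
    refine avg_dom (ν := (volume : Measure (Fin (d + 1) → ℂ)).restrict (ball 0 1))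
      (w := fun k b => lin (bad A d) a₀ r₀ k b) (fun k => lin_meas hmeas k)
      (B := 4) (fun k b => lin_le _ _ _ _ _) ?_
    have h1 : ∀ᵐ b : Fin (d + 1) → ℂ, ∀ V ∈ 𝒱, b ∉ V := by
      rw [Filter.eventually_all_finset]
      intro V hV
      have h2 := proper_null (h𝒱2 V hV)
      exact measure_eq_zero_iff_ae_notMem.1 h2
    exact (ae_restrict_of_ae h1).mono fun b hb => hlin b hb

end Pool.Agent.H211.LD
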