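import Pool.Agent.H211.LD.Final

/-! Weakly expanding polynomials. -/

set_option autoImplicit false

open Filter Topology Metric Set MeasureTheory Polynomial
open scoped ENNReal Pointwise

namespace Pool.Agent.H211.LD

theorem freq_div {x : ℕ → ℝ≥0∞} {Q : ℕ} (hQ : 0 < Q) {G : ℕ → Prop} (hG : ∃ᶠ n in atTop, G n)
    {δ : ℝ≥0∞} (h : ∃ N₀, ∀ n ≥ N₀, G n → x (n / Q) ≤ δ) : ∃ᶠ N in atTop, x N ≤ δ := by
  obtain ⟨N₀, hN₀⟩ := h
  rw [Filter.frequently_atTop]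
  intro N
  obtain ⟨n, hn, hGn⟩ := Filter.frequently_atTop.1 hG (max N₀ (Q * N))
  refine ⟨n / Q, ?_, hN₀ n ((le_max_left _ _).trans hn) hGn⟩
  rw [Nat.le_div_iff_mul_le hQ, Nat.mul_comm]
  exact (le_max_right _ _).trans hn

theorem liminf_zero {x : ℕ → ℝ≥0∞} (h : ∀ ε : ℝ≥0∞, 0 < ε → ∃ᶠ N in atTop, x N ≤ ε) :
    liminf x atTop = 0 := by
  refine le_antisymm (le_of_forall_pos_le_add fun ε hε => ?_) zero_le
  rw [zero_add]
  exact Filter.liminf_le_of_frequently_le' (h ε hε)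

/-- the averages of the integrals along common times -/
theorem avg_freq {X : Type} [MeasurableSpace X] {ν : Measure X} [IsFiniteMeasure ν]
    {w : ℕ → X → ℝ≥0∞} (hw : ∀ k, Measurable (w k)) {B : ℝ} (hB : ∀ k x, w k x ≤ ENNReal.ofReal B)
    {G : ℕ → Prop} (hG : ∃ᶠ n in atTop, G n)
    (hlim : ∀ᵐ x ∂ν, ∃ q : ℕ, 0 < q ∧ ∀ Q ≥ q, ∀ δ : ℝ≥0∞, 0 < δ → ∃ N₀, ∀ n ≥ N₀, G n →
      avg (fun k => w k x) (n / Q) ≤ δ) :
    ∀ ε : ℝ≥0∞, 0 < ε → ∃ᶠ N in atTop, avg (fun k => ∫⁻ x, w k x ∂ν) N ≤ ε := by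
  intro ε hε
  obtain ⟨φ, hφ, hGφ⟩ := Filter.extraction_of_frequently_atTop hG
  set g : ℕ → X → ℝ≥0∞ := fun Q x => limsup (fun i => avg (fun k => w k x) (φ i / (Q + 1))) atTop
    with hg
  have hgm : ∀ Q, Measurable (g Q) := fun Q =>
    Measurable.limsup fun i => avg_meas hw _
  have hgB : ∀ Q x, g Q x ≤ ENNReal.ofReal B := fun Q x =>
    Filter.limsup_le_of_le (by isBoundedDefault) (Eventually.of_forall fun i => avg_le (fun k => hB k x) _)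
  have hg0 : ∀ᵐ x ∂ν, Tendsto (fun Q => g Q x) atTop (𝓝 0) := by
    filter_upwards [hlim] with x hx
    obtain ⟨q, hq, hx⟩ := hx
    refine tendsto_const_nhds.congr' ?_
    filter_upwards [eventually_ge_atTop q] with Q hQ
    symm
    refine le_antisymm (le_of_forall_pos_le_add fun δ hδ => ?_) zero_le
    rw [zero_add]
    obtain ⟨N₀, hN₀⟩ := hx (Q + 1) (by omega) δ hδ
    refine Filter.limsup_le_of_le (by isBoundedDefault) ?_
    filter_upwards [hφ.tendsto_atTop.eventually_ge_atTop N₀] with i hi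
    exact hN₀ _ hi (hGφ i)
  have h1 := tendsto_lintegral_of_dominated_convergence (μ := ν)
    (F := g) (f := fun _ => 0) (fun _ => ENNReal.ofReal B)
    hgm (fun Q => Eventually.of_forall fun x => hgB Q x)
    (by
      rw [lintegral_const]
      exact ENNReal.mul_ne_top ENNReal.ofReal_ne_top (measure_ne_top _ _)) hg0
  rw [lintegral_zero] at h1
  obtain ⟨Q, hQ⟩ := (h1.eventually_lt_const hε).exists
  have h2 := limsup_lintegral_le (μ := ν)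
    (f := fun i x => avg (fun k => w k x) (φ i / (Q + 1))) (fun _ => ENNReal.ofReal B)
    (fun i => avg_meas hw _) (fun i => Eventually.of_forall fun x => avg_le (fun k => hB k x) _)
    (by
      rw [lintegral_const]
      exact ENNReal.mul_ne_top ENNReal.ofReal_ne_top (measure_ne_top _ _))
  have h3 : ∀ᶠ i in atTop, ∫⁻ x, avg (fun k => w k x) (φ i / (Q + 1)) ∂ν < ε :=
    Filter.eventually_lt_of_limsup_lt (lt_of_le_of_lt h2 hQ)
  refine freq_div (Q := Q + 1) (Nat.succ_pos Q) (G := fun n => ∃ i, n = φ i) ?_ ?_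
  · rw [Filter.frequently_atTop]
    intro N
    obtain ⟨i, hi⟩ := (hφ.tendsto_atTop.eventually_ge_atTop N).exists
    exact ⟨φ i, hi, i, rfl⟩
  · obtain ⟨i₀, hi₀⟩ := Filter.eventually_atTop.1 h3
    refine ⟨φ i₀, ?_⟩
    rintro n hn ⟨i, rfl⟩
    have h4 : i₀ ≤ i := hφ.le_iff_le.1 hn
    rw [avg_int hw]
    exact (hi₀ i h4).le

/-- **Weakly expanding polynomials.** -/
theorem we_final {A : (ℂ → ℂ) → ℂ → Prop} (hA : PredE A) {d : ℕ} (hd : 2 ≤ d)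
    {a₀ : Fin (d + 1) → ℂ} (h0 : a₀ (Fin.last d) ≠ 0)
    (hnull : volume {z : ℂ | ¬ A (ev a₀) z} = 0) {μ : ℝ} (hμ : 1 < μ)
    (hexp : ∃ᶠ n : ℕ in atTop, GrE A a₀ μ n)
    (hsimple : ∀ c : ℂ, deriv (ev a₀) c = 0 → A (ev a₀) c ∨ deriv (deriv (ev a₀)) c = 0 ∨
        Summable fun m => ‖deriv ((ev a₀)^[m]) (ev a₀ c)‖⁻¹) :
    (∃ 𝒱 : Finset (Submodule ℂ (Fin (d + 1) → ℂ)), 𝒱.card ≤ 2 * (d - 1) ∧
      (∀ V ∈ 𝒱, V ≠ ⊤) ∧
      ∀ b : Fin (d + 1) → ℂ, (∀ V ∈ 𝒱, b ∉ V) →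
        liminf (fun N => avg (propLine (bad A d) a₀ b) N) atTop = 0) ∧
    liminf (fun N => avg (prop (bad A d) a₀) N) atTop = 0 := by
  obtain ⟨𝒱, h𝒱1, h𝒱2, h𝒱3⟩ := lines hA hd h0 hnull hμ hexp hsimple
  obtain ⟨r₀, hr₀, hmeas⟩ := bad_meas hA hd h0
  refine ⟨⟨𝒱, h𝒱1, h𝒱2, fun b hb => liminf_zero ?_⟩, liminf_zero ?_⟩
  · obtain ⟨k₀, hk₀⟩ := propLine_lin (B := bad A d) (a₀ := a₀) (b := b) hr₀
    refine avg_shift_freq ENNReal.one_ne_top (propLine_le _ _ _) hk₀ fun δ hδ => ?_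
    obtain ⟨q, hq, h1⟩ := h𝒱3 b hb
    exact freq_div hq hexp (line_avg hq (h1 q le_rfl) r₀ hδ)
  · obtain ⟨C, hC, k₀, hk₀⟩ := ball_prop hr₀ hmeas
    refine avg_shift_freq hC (prop_le _ _) hk₀ ?_
    have hfin : IsFiniteMeasure ((volume : Measure (Fin (d + 1) → ℂ)).restrict (ball 0 1)) :=
      ⟨by rw [Measure.restrict_apply_univ]; exact measure_ball_lt_top⟩
    refine avg_freq (ν := (volume : Measure (Fin (d + 1) → ℂ)).restrict (ball 0 1))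
      (w := fun k b => lin (bad A d) a₀ r₀ k b) (fun k => lin_meas hmeas k)
      (B := 4) (fun k b => lin_le _ _ _ _ _) hexp ?_
    have h1 : ∀ᵐ b : Fin (d + 1) → ℂ, ∀ V ∈ 𝒱, b ∉ V := by
      rw [Filter.eventually_all_finset]
      intro V hV
      have h2 := proper_null (h𝒱2 V hV)
      exact measure_eq_zero_iff_ae_notMem.1 h2
    refine (ae_restrict_of_ae h1).mono fun b hb => ?_
    obtain ⟨q, hq, h3⟩ := h𝒱3 b hb
    exact ⟨q, hq, fun Q hQ δ hδ => line_avg (lt_of_lt_of_le hq hQ) (h3 Q hQ) r₀ hδ⟩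

end Pool.Agent.H211.LD
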