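import Mathlib
import Pool.Graph.R_seed8.H792R2.Rat.Loc
import Pool.Graph.R_seed8.H792R2.CE.D4

/-! Preimages of null sets under nonconstant holomorphic functions are null. -/

set_option autoImplicit false

open Filter Topology Metric Set MeasureTheory
open scoped ENNReal

namespace Pool.Agent.H211.LD

/-- the derivative as a real linear map -/
noncomputable def dd (Φ : ℂ → ℂ) (w : ℂ) : ℂ →L[ℝ] ℂ :=
  (ContinuousLinearMap.smulRight (1 : ℂ →L[ℂ] ℂ) (deriv Φ w)).restrictScalars ℝ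

theorem dd_det (Φ : ℂ → ℂ) (w : ℂ) : |(dd Φ w).det| = ‖deriv Φ w‖ ^ 2 :=
  Pool.Agent.H792R2.CE.D4x.det_smulRight _

theorem dd_has {Φ : ℂ → ℂ} {w : ℂ} (h : DifferentiableAt ℂ Φ w) : HasFDerivAt Φ (dd Φ w) w :=
  h.hasDerivAt.hasFDerivAt.restrictScalars ℝ

/-- near a point where the derivative does not vanish, the preimage of a null set is null -/
theorem null_near {Φ : ℂ → ℂ} {W : Set ℂ} (hW : IsOpen W) (hΦ : DifferentiableOn ℂ Φ W)
    {Z : Set ℂ} (hZm : MeasurableSet Z) (hZ : volume Z = 0) {x : ℂ} (hx : x ∈ W)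
    (hd : deriv Φ x ≠ 0) : ∃ U ∈ 𝓝 x, volume {α ∈ U | Φ α ∈ Z} = 0 := by
  have han : AnalyticOnNhd ℂ Φ W := hΦ.analyticOnNhd hW
  have hst : HasStrictDerivAt Φ (deriv Φ x) x :=
    (han x hx).hasStrictDerivAt
  have h2 := hst.hasStrictFDerivAt_equiv hd
  have hsrc := (h2.toOpenPartialHomeomorph Φ).open_source.mem_nhds
    h2.mem_toOpenPartialHomeomorph_source
  have hinj := (h2.toOpenPartialHomeomorph Φ).injOn
  rw [h2.toOpenPartialHomeomorph_coe] at hinj
  have hd2 : ∀ᶠ y in 𝓝 x, deriv Φ y ≠ 0 :=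
    ((han x hx).deriv.continuousAt).eventually_ne hd
  obtain ⟨U, hUs, hUo, hxU⟩ := _root_.mem_nhds_iff.1
    (inter_mem hsrc (inter_mem (hW.mem_nhds hx) hd2))
  refine ⟨U, hUo.mem_nhds hxU, ?_⟩
  have hcont : ContinuousOn Φ U := hΦ.continuousOn.mono fun y hy => (hUs hy).2.1
  have hmeas : MeasurableSet {α ∈ U | Φ α ∈ Z} := by
    have h3 : {α ∈ U | Φ α ∈ Z} = U ∩ Φ ⁻¹' Z := rfl
    rw [h3]
    have h4 : Measurable (U.domRestrict Φ) := (continuousOn_iff_continuous_domRestrict.1 hcont).measurable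
    have h5 : U ∩ Φ ⁻¹' Z = (fun y : U => (y : ℂ)) '' (U.domRestrict Φ ⁻¹' Z) := by
      ext y
      constructor
      · rintro ⟨hy1, hy2⟩
        exact ⟨⟨y, hy1⟩, hy2, rfl⟩
      · rintro ⟨y', hy', rfl⟩
        exact ⟨y'.2, hy'⟩
    rw [h5]
    exact (MeasurableEmbedding.subtype_coe hUo.measurableSet).measurableSet_image.2 (h4 hZm)
  have hF := lintegral_abs_det_fderiv_eq_addHaar_image volume hmeas
    (f := Φ) (f' := dd Φ) (fun y hy => (dd_has
      (hΦ.differentiableAt (hW.mem_nhds (hUs hy.1).2.1))).hasFDerivWithinAt)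
    (hinj.mono fun y hy => (hUs hy.1).1)
  have himg : volume (Φ '' {α ∈ U | Φ α ∈ Z}) = 0 := by
    refine measure_mono_null ?_ hZ
    rintro _ ⟨y, hy, rfl⟩
    exact hy.2
  rw [himg] at hF
  have hmd : Measurable (fun y => ENNReal.ofReal |(dd Φ y).det|) := by
    simp only [dd_det]
    exact ((measurable_deriv Φ).norm.pow_const 2).ennreal_ofReal
  rw [lintegral_eq_zero_iff hmd] at hF
  have h6 : ∀ᵐ y ∂(volume.restrict {α ∈ U | Φ α ∈ Z}), False := by
    filter_upwards [hF, ae_restrict_mem hmeas] with y hy1 hy2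
    have h7 : 0 < ‖deriv Φ y‖ ^ 2 := by
      have := norm_pos_iff.2 (hUs hy2.1).2.2
      positivity
    have h8 : ENNReal.ofReal |(dd Φ y).det| = 0 := hy1
    rw [dd_det, ENNReal.ofReal_eq_zero] at h8
    linarith
  have h9 : volume.restrict {α ∈ U | Φ α ∈ Z} = 0 := by
    rw [← ae_eq_bot]
    exact Filter.eventually_false_iff_eq_bot.1 h6
  rwa [Measure.restrict_eq_zero] at h9

/-- the preimage of a null set under a nonconstant holomorphic function is null -/
theorem preim_null {Φ : ℂ → ℂ} (hΦ : DifferentiableOn ℂ Φ (ball 0 1))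
    (hnc : ∃ x ∈ ball (0 : ℂ) 1, ∃ y ∈ ball (0 : ℂ) 1, Φ x ≠ Φ y) {Z : Set ℂ}
    (hZm : MeasurableSet Z) (hZ : volume Z = 0) :
    volume {α ∈ ball (0 : ℂ) 1 | Φ α ∈ Z} = 0 := by
  have han : AnalyticOnNhd ℂ Φ (ball 0 1) := hΦ.analyticOnNhd isOpen_ball
  have hdan : AnalyticOnNhd ℂ (deriv Φ) (ball 0 1) := han.deriv
  -- the derivative has isolated zeros
  have hiso : ∀ x ∈ ball (0 : ℂ) 1, ∀ᶠ z in 𝓝[≠] x, deriv Φ z ≠ 0 := by
    intro x hx
    rcases (hdan x hx).eventually_eq_zero_or_eventually_ne_zero with h | h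
    · exfalso
      have h1 := hdan.eqOn_zero_of_preconnected_of_eventuallyEq_zero
        (convex_ball (0 : ℂ) 1).isPreconnected hx h
      obtain ⟨u, hu, v, hv, huv⟩ := hnc
      apply huv
      have h2 : ∀ y ∈ ball (0 : ℂ) 1, HasDerivAt Φ 0 y := by
        intro y hy
        have h3 := (hΦ.differentiableAt (isOpen_ball.mem_nhds hy)).hasDerivAt
        rw [h1 hy] at h3
        exact h3
      exact (convex_ball (0 : ℂ) 1).is_const_of_fderivWithin_eq_zero (𝕜 := ℂ) hΦ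
        (fun y hy => by
          rw [fderivWithin_of_isOpen isOpen_ball hy]
          have h4 := (h2 y hy).hasFDerivAt.fderiv
          rw [h4]
          ext
          simp) hu hv
    · exact h
  set N : Set ℂ := {α ∈ ball (0 : ℂ) 1 | Φ α ∈ Z} with hN
  have hgood : volume (N \ {α | deriv Φ α = 0}) = 0 := by
    refine measure_null_of_locally_null _ fun x hx => ?_
    obtain ⟨U, hU, h1⟩ := null_near isOpen_ball hΦ hZm hZ hx.1.1 hx.2
    refine ⟨U ∩ (N \ {α | deriv Φ α = 0}), ?_, ?_⟩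
    · exact inter_mem (mem_nhdsWithin_of_mem_nhds hU) self_mem_nhdsWithin
    · refine measure_mono_null (t := {α ∈ U | Φ α ∈ Z}) ?_ h1
      rintro y ⟨hy1, hy2⟩
      exact ⟨hy1, hy2.1.2⟩
  have hbad : volume (N ∩ {α | deriv Φ α = 0}) = 0 := by
    refine measure_null_of_locally_null _ fun x hx => ?_
    have h1 := hiso x hx.1.1
    rw [eventually_nhdsWithin_iff] at h1
    refine ⟨{z | z ∈ ({x} : Set ℂ)ᶜ → deriv Φ z ≠ 0} ∩ (N ∩ {α | deriv Φ α = 0}), ?_, ?_⟩
    · exact inter_mem (mem_nhdsWithin_of_mem_nhds h1) self_mem_nhdsWithin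
    · refine measure_mono_null (t := {x}) ?_ (by simp)
      intro y hy
      by_contra hyx
      exact hy.1 hyx hy.2.2
  have h5 : N = (N \ {α | deriv Φ α = 0}) ∪ (N ∩ {α | deriv Φ α = 0}) := by
    rw [Set.sdiff_union_inter]
  rw [h5]
  exact measure_union_null hgood hbad

end Pool.Agent.H211.LD
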