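import Mathlib
import Pool.Graph.R_seed8.H792R2.Rat.Loc
import Pool.Agent.H211.LD.Null

/-! Scales at which the exit time does not jump: almost all parameters are good. -/

set_option autoImplicit false

open Filter Topology Metric Set MeasureTheory
open scoped ENNReal Pointwise

namespace Pool.Agent.H211.LD

open Pool.Agent.H792R2.Rt (orbit_diffAt)

/-- small thickenings of a closed null set have preimages of small measure -/
theorem thick_small {Φ : ℂ → ℂ} (hΦ : DifferentiableOn ℂ Φ (ball 0 1))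
    (hnc : ∃ x ∈ ball (0 : ℂ) 1, ∃ y ∈ ball (0 : ℂ) 1, Φ x ≠ Φ y) {Z : Set ℂ}
    (hZc : IsClosed Z) (hZ : volume Z = 0) {θ : ℝ} (hθ1 : θ < 1) {ε : ℝ≥0∞} (hε : 0 < ε) :
    ∃ η : ℝ, 0 < η ∧ volume {α ∈ closedBall (0 : ℂ) θ | Φ α ∈ cthickening η Z} < ε := by
  have hsub : closedBall (0 : ℂ) θ ⊆ ball 0 1 := closedBall_subset_ball hθ1
  have hcont : ContinuousOn Φ (closedBall (0 : ℂ) θ) := hΦ.continuousOn.mono hsub
  set S : ℕ → Set ℂ := fun n => {α ∈ closedBall (0 : ℂ) θ | Φ α ∈ cthickening (1 / ((n : ℝ) + 1)) Z}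
    with hS
  have hSc : ∀ n, IsClosed (S n) := by
    intro n
    exact hcont.preimage_isClosed_of_isClosed isClosed_closedBall isClosed_cthickening
  have hanti : Antitone S := by
    intro m n hmn α hα
    refine ⟨hα.1, cthickening_mono ?_ Z hα.2⟩
    apply one_div_le_one_div_of_le (by positivity)
    have : (m : ℝ) ≤ n := by exact_mod_cast hmn
    linarith
  have hlim := tendsto_measure_iInter_atTop (μ := volume) (s := S)
    (fun n => (hSc n).nullMeasurableSet) hanti ⟨0, by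
      refine ne_top_of_le_ne_top ?_ (measure_mono (t := closedBall (0 : ℂ) θ) fun α hα => hα.1)
      exact measure_closedBall_lt_top.ne⟩
  have hint : volume (⋂ n, S n) = 0 := by
    refine measure_mono_null ?_ (preim_null hΦ hnc hZc.measurableSet hZ)
    intro α hα
    rw [mem_iInter] at hα
    refine ⟨hsub (hα 0).1, ?_⟩
    rw [← hZc.closure_eq, mem_closure_iff_infEDist_zero]
    by_contra hne
    have hpos : 0 < infEDist (Φ α) Z := pos_iff_ne_zero.2 hne
    have h1 : ∀ n : ℕ, infEDist (Φ α) Z ≤ ENNReal.ofReal (1 / ((n : ℝ) + 1)) := fun n =>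
      (hα n).2
    have h2 : Tendsto (fun n : ℕ => ENNReal.ofReal (1 / ((n : ℝ) + 1))) atTop (𝓝 0) := by
      have h3 := ENNReal.tendsto_ofReal (tendsto_one_div_add_atTop_nhds_zero_nat (𝕜 := ℝ))
      simpa using h3
    have h4 := ge_of_tendsto' h2 h1
    exact absurd h4 (not_le.2 hpos)
  rw [hint] at hlim
  obtain ⟨n, hn⟩ := (hlim.eventually (gt_mem_nhds hε)).exists
  exact ⟨1 / ((n : ℝ) + 1), by positivity, hn⟩

/-- **Good scales.** -/
theorem good_scale {f : ℂ → ℂ → ℂ} {W : Set (ℂ × ℂ)}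
    (hf : ∀ p ∈ W, ContDiffAt ℂ 1 (fun p : ℂ × ℂ => f p.1 p.2) p)
    {K : Set ℂ} (hK : IsCompact K) {ρ δ₁ : ℝ} (hρ : 0 < ρ) (hδ₁ : 0 < δ₁)
    (hKW : ∀ a z, ‖a‖ < ρ → z ∈ cthickening δ₁ K → (a, z) ∈ W)
    (A : ℂ → ℂ → Prop) (hstep : ∀ a z, (a, z) ∈ W → A a (f a z) → A a z)
    (hstab : ∀ z, A 0 z → ∀ᶠ p : ℂ × ℂ in 𝓝 (0, z), A p.1 p.2)
    (hnull : volume {z : ℂ | ¬ A 0 z} = 0)
    (ζ : ℂ → ℂ) (hζ : ∀ a, ‖a‖ < ρ → DifferentiableAt ℂ ζ a)
    (hb : ∀ n, (f 0)^[n] (ζ 0) ∈ K)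
    {θ : ℝ} (hθ0 : 0 < θ) (hθ1 : θ < 1) {j₀ : ℕ} (hj₀ : θ ^ j₀ < ρ)
    (hinit : ∀ a, ‖a‖ ≤ θ ^ j₀ → ζ a ∈ cthickening δ₁ K)
    (e : ℕ → ℕ) (hespec : ∀ j ≥ j₀, ∃ a, ‖a‖ ≤ θ ^ j ∧ (f a)^[e j] (ζ a) ∉ cthickening δ₁ K)
    (hemin : ∀ j ≥ j₀, ∀ m < e j, ∀ a, ‖a‖ ≤ θ ^ j → (f a)^[m] (ζ a) ∈ cthickening δ₁ K)
    (B : ℕ) {ε : ℝ} (hε : 0 < ε) :
    ∀ᶠ j in atTop, e (j + 1) ≤ e j + B →
      volume {a : ℂ | ‖a‖ ≤ θ ^ (j + 1) ∧ ¬ A a (ζ a)} ≤
        ENNReal.ofReal (ε * (θ ^ (j + 1)) ^ 2) := by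
  classical
  by_contra hcon
  rw [Filter.not_eventually] at hcon
  have hcon' : ∃ᶠ j in atTop, j₀ ≤ j ∧ e (j + 1) ≤ e j + B ∧
      ENNReal.ofReal (ε * (θ ^ (j + 1)) ^ 2) <
        volume {a : ℂ | ‖a‖ ≤ θ ^ (j + 1) ∧ ¬ A a (ζ a)} := by
    refine (hcon.and_eventually (eventually_ge_atTop j₀)).mono fun j hj => ?_
    obtain ⟨h1, h2⟩ := hj
    push Not at h1
    exact ⟨h2, h1.1, h1.2⟩
  rw [Filter.frequently_atTop] at hcon'
  choose jj hjj1 hjj0 hjjB hjjv using hcon'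
  set y : ℂ → ℕ → ℂ := fun a m => (f a)^[m] (ζ a) with hy
  set K₁ : Set ℂ := cthickening δ₁ K with hK₁
  have hKK₁ : K ⊆ K₁ := self_subset_cthickening K
  have hK₁c : IsCompact K₁ := hK.cthickening
  have hysucc : ∀ a m, y a (m + 1) = f a (y a m) := by
    intro a m
    simp only [hy, Function.iterate_succ_apply']
  set r : ℕ → ℝ := fun j => θ ^ j with hr
  have hrpos : ∀ j, 0 < r j := fun j => pow_pos hθ0 j
  have hrle : ∀ j ≥ j₀, r j ≤ r j₀ := fun j hj => pow_le_pow_of_le_one hθ0.le hθ1.le hj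
  have hrlt : ∀ j ≥ j₀, r j < ρ := fun j hj => lt_of_le_of_lt (hrle j hj) hj₀
  have hrsucc : ∀ j, r (j + 1) = θ * r j := by
    intro j
    simp only [hr, pow_succ]
    ring
  have hepos : ∀ j ≥ j₀, 1 ≤ e j := by
    intro j hj
    by_contra hcon2
    have h0 : e j = 0 := by omega
    obtain ⟨a, ha, ha2⟩ := hespec j hj
    rw [h0] at ha2
    exact ha2 (hinit a (ha.trans (hrle j hj)))
  -- uniform bound on `K₁`
  obtain ⟨M, hM⟩ : ∃ M : ℝ, ∀ z ∈ K₁, ‖z‖ ≤ M := by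
    obtain ⟨M, hM⟩ := hK₁c.isBounded.exists_norm_le
    exact ⟨M, hM⟩
  -- the rescaled functions
  set τ : ℕ → ℕ := fun k => e (jj k) - 1 with hτ
  set Y : ℕ → ℂ → ℂ := fun k α => y ((r (jj k) : ℂ) * α) (τ k) with hY
  have hnorm : ∀ k (α : ℂ), ‖(r (jj k) : ℂ) * α‖ = r (jj k) * ‖α‖ := by
    intro k α
    rw [norm_mul, Complex.norm_real, Real.norm_eq_abs, abs_of_pos (hrpos _)]
  have hnle : ∀ k (α : ℂ), ‖α‖ ≤ 1 → ‖(r (jj k) : ℂ) * α‖ ≤ r (jj k) := by
    intro k α hα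
    rw [hnorm]
    nlinarith [hrpos (jj k), norm_nonneg α]
  have hin : ∀ k (α : ℂ), ‖α‖ ≤ 1 → ∀ m ≤ τ k, y ((r (jj k) : ℂ) * α) m ∈ K₁ := by
    intro k α hα m hm
    have h1 := hepos (jj k) (hjj0 k)
    exact hemin (jj k) (hjj0 k) m (by simp only [hτ] at hm; omega) _ (hnle k α hα)
  have hYd : ∀ k, DifferentiableOn ℂ (Y k) (ball 0 1) := by
    intro k α hα
    rw [mem_ball_zero_iff] at hα
    have hle := hnle k α hα.le
    have hlt : ‖(r (jj k) : ℂ) * α‖ < ρ := lt_of_le_of_lt hle (hrlt _ (hjj0 k))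
    have h1 : DifferentiableAt ℂ (fun b => (f b)^[τ k] (ζ b)) ((r (jj k) : ℂ) * α) :=
      orbit_diffAt hf (hζ _ hlt) _ fun m hm => hKW _ _ hlt (hin k α hα.le m hm.le)
    have h2 : DifferentiableAt ℂ (fun α : ℂ => (r (jj k) : ℂ) * α) α := by fun_prop
    exact (DifferentiableAt.comp (g := fun b => (f b)^[τ k] (ζ b))
      (f := fun α : ℂ => (r (jj k) : ℂ) * α) α h1 h2).differentiableWithinAt
  have hYb : ∀ k, ∀ α ∈ ball (0 : ℂ) 1, ‖Y k α‖ ≤ M := by
    intro k α hα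
    rw [mem_ball_zero_iff] at hα
    exact hM _ (hin k α hα.le _ le_rfl)
  set 𝒰 : Ultrafilter ℕ := hyperfilter ℕ with h𝒰
  have h𝒰le : (𝒰 : Filter ℕ) ≤ atTop := Nat.hyperfilter_le_atTop
  obtain ⟨Φ, hΦd, hΦlim⟩ :=
    Pool.Agent.Helper114.Montel.montel isOpen_ball Y hYd M hYb 𝒰
  have hrt : Tendsto (fun k => r (jj k)) atTop (𝓝 0) := by
    have h1 : Tendsto r atTop (𝓝 0) := tendsto_pow_atTop_nhds_zero_of_lt_one hθ0.le hθ1
    exact h1.comp (tendsto_atTop_mono hjj1 tendsto_id)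
  have hcb : closedBall (0 : ℂ) θ ⊆ ball 0 1 := closedBall_subset_ball hθ1
  have hunif : TendstoUniformlyOn Y Φ 𝒰 (closedBall 0 θ) :=
    (tendstoLocallyUniformlyOn_iff_forall_isCompact isOpen_ball).1 hΦlim _ hcb
      (isCompact_closedBall _ _)
  have hθn : ∀ α ∈ closedBall (0 : ℂ) θ, ‖α‖ ≤ 1 := by
    intro α hα
    rw [mem_closedBall_zero_iff] at hα
    linarith
  -- non-constant limit
  have hnc : ∃ x ∈ ball (0 : ℂ) 1, ∃ z ∈ ball (0 : ℂ) 1, Φ x ≠ Φ z := by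
    by_contra hcon2
    push Not at hcon2
    have hconst : ∀ x ∈ ball (0 : ℂ) 1, Φ x = Φ 0 := fun x hx =>
      hcon2 x hx 0 (mem_ball_self one_pos)
    have hind : ∀ l : ℕ, ∃ z ∈ K, ∀ ε > 0, ∀ᶠ k in (𝒰 : Filter ℕ),
        ∀ α ∈ closedBall (0 : ℂ) θ, ‖y ((r (jj k) : ℂ) * α) (τ k + l) - z‖ < ε := by
      intro l
      induction l with
      | zero =>
        refine ⟨Φ 0, ?_, ?_⟩
        · have h1 : Tendsto (fun k => Y k 0) 𝒰 (𝓝 (Φ 0)) :=
            hΦlim.tendsto_at (mem_ball_self one_pos)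
          refine hK.isClosed.mem_of_tendsto h1 (Eventually.of_forall fun k => ?_)
          simp only [hY, hy, mul_zero]
          exact hb _
        · intro ε hε
          have h1 := hunif
          rw [Metric.tendstoUniformlyOn_iff] at h1
          filter_upwards [h1 ε hε] with k hk α hα
          have h2 := hk α hα
          rw [hconst α (hcb hα), dist_comm, dist_eq_norm] at h2
          exact h2
      | succ l ih =>
        obtain ⟨z, hzK, hz⟩ := ih
        have hzW : ((0 : ℂ), z) ∈ W := hKW 0 z (by simpa using hρ) (hKK₁ hzK)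
        have hcont : ContinuousAt (fun p : ℂ × ℂ => f p.1 p.2) (0, z) := (hf _ hzW).continuousAt
        have hkey : ∀ ε > 0, ∀ᶠ k in (𝒰 : Filter ℕ),
            ∀ α ∈ closedBall (0 : ℂ) θ,
              ‖y ((r (jj k) : ℂ) * α) (τ k + (l + 1)) - f 0 z‖ < ε := by
          intro ε hε
          obtain ⟨η, hη, hη2⟩ := Metric.continuousAt_iff.1 hcont ε hε
          have h1 : ∀ᶠ k in (𝒰 : Filter ℕ), r (jj k) < η :=
            (hrt.mono_left h𝒰le).eventually (Iio_mem_nhds hη)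
          filter_upwards [hz η hη, h1] with k hk hk2 α hα
          have h3 := hk α hα
          have h4 : ‖(r (jj k) : ℂ) * α‖ < η :=
            lt_of_le_of_lt (hnle k α (hθn α hα)) hk2
          have h5 := @hη2 ((r (jj k) : ℂ) * α, y ((r (jj k) : ℂ) * α) (τ k + l)) (by
            rw [Prod.dist_eq, max_lt_iff]
            refine ⟨?_, ?_⟩
            · simpa using h4
            · rw [dist_eq_norm]; exact h3)
          rw [dist_eq_norm] at h5
          rw [← add_assoc, hysucc]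
          exact h5
        refine ⟨f 0 z, ?_, hkey⟩
        have h1 : Tendsto (fun k => y 0 (τ k + (l + 1))) 𝒰 (𝓝 (f 0 z)) := by
          rw [Metric.tendsto_nhds]
          intro ε hε
          filter_upwards [hkey ε hε] with k hk
          have h2 := hk 0 (mem_closedBall_self hθ0.le)
          rw [mul_zero] at h2
          rw [dist_eq_norm]
          exact h2
        exact hK.isClosed.mem_of_tendsto h1 (Eventually.of_forall fun k => hb _)
    choose zl hzl hzl2 using hind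
    have hall : ∀ᶠ k in (𝒰 : Filter ℕ), ∀ l ∈ Finset.range (B + 2),
        ∀ α ∈ closedBall (0 : ℂ) θ, ‖y ((r (jj k) : ℂ) * α) (τ k + l) - zl l‖ < δ₁ := by
      rw [Filter.eventually_all_finset]
      intro l _
      exact hzl2 l δ₁ hδ₁
    obtain ⟨k, hk⟩ := hall.exists
    obtain ⟨a, ha, ha2⟩ := hespec (jj k + 1) (by have := hjj0 k; omega)
    have h1 := hepos (jj k) (hjj0 k)
    have h2 := hjjB k
    rcases Nat.lt_or_ge (e (jj k + 1)) (e (jj k)) with h3 | h3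
    · apply ha2
      refine hemin (jj k) (hjj0 k) _ h3 a (ha.trans ?_)
      exact pow_le_pow_of_le_one hθ0.le hθ1.le (Nat.le_succ _)
    have hl : e (jj k + 1) = τ k + (e (jj k + 1) - τ k) := by
      simp only [hτ]; omega
    have hlB : e (jj k + 1) - τ k ∈ Finset.range (B + 2) := by
      rw [Finset.mem_range]
      simp only [hτ]; omega
    have hr0 : (r (jj k) : ℂ) ≠ 0 := by exact_mod_cast (hrpos (jj k)).ne'
    have hα : a / (r (jj k) : ℂ) ∈ closedBall (0 : ℂ) θ := by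
      rw [mem_closedBall_zero_iff, norm_div, Complex.norm_real, Real.norm_eq_abs,
        abs_of_pos (hrpos _), div_le_iff₀ (hrpos _), ← hrsucc]
      exact ha
    have h4 := hk _ hlB _ hα
    rw [mul_div_cancel₀ _ hr0, ← hl] at h4
    apply ha2
    refine mem_cthickening_of_dist_le _ (zl (e (jj k + 1) - τ k)) _ _ (hzl _) ?_
    rw [dist_eq_norm]
    exact h4.le
  set Z : Set ℂ := {z | ¬ A 0 z} with hZdef
  have hBo : IsClosed Z := by
    have h0 : IsOpen {z | A 0 z} := by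
      rw [isOpen_iff_mem_nhds]
      intro z hz
      have h1 := hstab z hz
      have h2 : Tendsto (fun w : ℂ => ((0 : ℂ), w)) (𝓝 z) (𝓝 ((0 : ℂ), z)) := by
        have : Continuous (fun w : ℂ => ((0 : ℂ), w)) := by fun_prop
        exact this.tendsto z
      exact h2.eventually h1
    exact h0.isClosed_compl
  obtain ⟨η, hη, hηv⟩ := thick_small hΦd hnc hBo hnull hθ1
    (ε := ENNReal.ofReal (ε * θ ^ 2)) (by rw [ENNReal.ofReal_pos]; positivity)
  -- uniform stability away from the bad set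
  set Lc : Set ℂ := K₁ \ thickening (η / 2) Z with hLc
  have hLcc : IsCompact Lc := hK₁c.diff isOpen_thickening
  have hst : ∀ᶠ a : ℂ in 𝓝 0, ∀ z ∈ Lc, A a z := by
    refine hLcc.eventually_forall_of_forall_eventually fun z hz => ?_
    apply hstab
    by_contra hAz
    exact hz.2 (self_subset_thickening (by positivity) Z hAz)
  obtain ⟨κ, hκ, hκs⟩ := Metric.mem_nhds_iff.1 hst
  have h1 : ∀ᶠ k in (𝒰 : Filter ℕ), r (jj k) < κ :=
    (hrt.mono_left h𝒰le).eventually (Iio_mem_nhds hκ)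
  rw [Metric.tendstoUniformlyOn_iff] at hunif
  obtain ⟨k, hk1, hk2⟩ := (h1.and (hunif (η / 2) (by positivity))).exists
  -- the bad set in the rescaled parameter
  have hsub : {α : ℂ | ‖α‖ ≤ θ ∧ ¬ A ((r (jj k) : ℂ) * α) (ζ ((r (jj k) : ℂ) * α))} ⊆
      {α ∈ closedBall (0 : ℂ) θ | Φ α ∈ cthickening η Z} := by
    rintro α ⟨hα, hbad⟩
    have hαc : α ∈ closedBall (0 : ℂ) θ := mem_closedBall_zero_iff.2 hα
    have hα1 : ‖α‖ ≤ 1 := hθn α hαc
    refine ⟨hαc, ?_⟩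
    have hlt : ‖(r (jj k) : ℂ) * α‖ < ρ := lt_of_le_of_lt (hnle k α hα1) (hrlt _ (hjj0 k))
    have hnA : ¬ A ((r (jj k) : ℂ) * α) (Y k α) := by
      intro hA
      apply hbad
      have hback : ∀ m ≤ τ k, A ((r (jj k) : ℂ) * α) (y ((r (jj k) : ℂ) * α) (τ k - m)) := by
        intro m
        induction m with
        | zero => intro _; exact hA
        | succ m ih =>
          intro hm
          have h3 := ih (by omega)
          have h4 : τ k - m = (τ k - (m + 1)) + 1 := by omega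
          rw [h4, hysucc] at h3
          exact hstep _ _ (hKW _ _ hlt (hin k α hα1 _ (Nat.sub_le _ _))) h3
      have h5 := hback (τ k) le_rfl
      rw [Nat.sub_self] at h5
      exact h5
    have hYK : Y k α ∈ K₁ := hin k α hα1 _ le_rfl
    have hYt : Y k α ∈ thickening (η / 2) Z := by
      by_contra hnot
      apply hnA
      refine hκs (mem_ball_zero_iff.2 ?_) _ ⟨hYK, hnot⟩
      exact lt_of_le_of_lt (hnle k α hα1) hk1
    obtain ⟨z, hz, hdz⟩ := mem_thickening_iff.1 hYt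
    refine mem_cthickening_of_dist_le _ z _ _ hz ?_
    have h6 := hk2 α hαc
    calc dist (Φ α) z ≤ dist (Φ α) (Y k α) + dist (Y k α) z := dist_triangle _ _ _
      _ ≤ η / 2 + η / 2 := by linarith
      _ = η := by ring
  have hscale : {a : ℂ | ‖a‖ ≤ θ ^ (jj k + 1) ∧ ¬ A a (ζ a)} =
      (r (jj k)) • {α : ℂ | ‖α‖ ≤ θ ∧ ¬ A ((r (jj k) : ℂ) * α) (ζ ((r (jj k) : ℂ) * α))} := by
    ext a
    have hr0 : r (jj k) ≠ 0 := (hrpos _).ne'
    have hr0' : (r (jj k) : ℂ) ≠ 0 := by exact_mod_cast hr0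
    rw [mem_smul_set_iff_inv_smul_mem₀ hr0]
    have e1 : (r (jj k))⁻¹ • a = a / (r (jj k) : ℂ) := by
      rw [Complex.real_smul]
      push_cast
      rw [div_eq_mul_inv, mul_comm]
    rw [e1]
    constructor
    · rintro ⟨h3, h4⟩
      refine ⟨?_, ?_⟩
      · rw [norm_div, Complex.norm_real, Real.norm_eq_abs, abs_of_pos (hrpos _),
          div_le_iff₀ (hrpos _), ← hrsucc]
        exact h3
      · rw [mul_div_cancel₀ _ hr0']
        exact h4
    · rintro ⟨h3, h4⟩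
      rw [mul_div_cancel₀ _ hr0'] at h4
      refine ⟨?_, h4⟩
      rw [norm_div, Complex.norm_real, Real.norm_eq_abs, abs_of_pos (hrpos _),
          div_le_iff₀ (hrpos _), ← hrsucc] at h3
      exact h3
  have hv := hjjv k
  rw [hscale, Measure.addHaar_smul, Complex.finrank_real_complex] at hv
  have h7 : volume {α : ℂ | ‖α‖ ≤ θ ∧ ¬ A ((r (jj k) : ℂ) * α) (ζ ((r (jj k) : ℂ) * α))} ≤
      ENNReal.ofReal (ε * θ ^ 2) := (measure_mono hsub).trans hηv.le
  have h8 : ENNReal.ofReal |r (jj k) ^ 2| * volume {α : ℂ | ‖α‖ ≤ θ ∧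
      ¬ A ((r (jj k) : ℂ) * α) (ζ ((r (jj k) : ℂ) * α))} ≤
      ENNReal.ofReal (ε * (θ ^ (jj k + 1)) ^ 2) := by
    calc _ ≤ ENNReal.ofReal |r (jj k) ^ 2| * ENNReal.ofReal (ε * θ ^ 2) := by gcongr
      _ = ENNReal.ofReal (|r (jj k) ^ 2| * (ε * θ ^ 2)) :=
          (ENNReal.ofReal_mul (abs_nonneg _)).symm
      _ = _ := by
          congr 1
          rw [abs_of_pos (by have := hrpos (jj k); positivity)]
          simp only [hr, pow_succ]
          ring
  exact absurd (hv.trans_le h8) (lt_irrefl _)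

end Pool.Agent.H211.LD
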