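import Mathlib
import Pool.Agent.H211.LD.Scale

/-! Most scales are good. -/

set_option autoImplicit false

open Filter Topology Metric Set MeasureTheory
open scoped ENNReal Pointwise

namespace Pool.Agent.H211.LD

open scoped Classical in
/-- the number of the `k < N` with the property `p` -/
noncomputable def cnt (p : ℕ → Prop) (N : ℕ) : ℕ := ((Finset.range N).filter p).card

theorem mem_filt (p : ℕ → Prop) (N k : ℕ) :
    (k ∈ @Finset.filter ℕ p (fun a => Classical.propDecidable (p a)) (Finset.range N)) ↔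
      k < N ∧ p k := by
  classical
  rw [Finset.mem_filter, Finset.mem_range]

theorem cnt_mono {p q : ℕ → Prop} (h : ∀ k, p k → q k) (N : ℕ) : cnt p N ≤ cnt q N := by
  classical
  unfold cnt
  apply Finset.card_le_card
  intro k hk
  rw [Finset.mem_filter] at hk ⊢
  exact ⟨hk.1, h k hk.2⟩

theorem cnt_mono_right (p : ℕ → Prop) {M N : ℕ} (h : M ≤ N) : cnt p M ≤ cnt p N := by
  classical
  unfold cnt
  exact Finset.card_le_card (Finset.filter_subset_filter _ (Finset.range_subset_range.2 h))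

theorem cnt_le (p : ℕ → Prop) (N : ℕ) : cnt p N ≤ N := by
  classical
  unfold cnt
  exact (Finset.card_filter_le _ _).trans (by simp)

theorem cnt_late {p : ℕ → Prop} {k₀ : ℕ} (h : ∀ k ≥ k₀, ¬ p k) (N : ℕ) : cnt p N ≤ k₀ := by
  classical
  unfold cnt
  calc _ ≤ (Finset.range k₀).card := by
        apply Finset.card_le_card
        intro k hk
        rw [Finset.mem_filter] at hk
        rw [Finset.mem_range]
        by_contra hcon
        exact h k (by omega) hk.2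
    _ = k₀ := by simp

theorem cnt_or (p q : ℕ → Prop) (N : ℕ) : cnt (fun k => p k ∨ q k) N ≤ cnt p N + cnt q N := by
  unfold cnt
  refine le_trans (Finset.card_le_card (t := (@Finset.filter ℕ p
    (fun a => Classical.propDecidable (p a)) (Finset.range N)) ∪
    (@Finset.filter ℕ q (fun a => Classical.propDecidable (q a)) (Finset.range N))) ?_)
    (Finset.card_union_le _ _)
  intro k hk
  obtain ⟨h1, h2⟩ := (mem_filt (fun k => p k ∨ q k) N k).1 hk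
  rcases h2 with h2 | h2
  · exact Finset.mem_union_left _ ((mem_filt p N k).2 ⟨h1, h2⟩)
  · exact Finset.mem_union_right _ ((mem_filt q N k).2 ⟨h1, h2⟩)

theorem cnt_exists {ι : Type} [Fintype ι] (p : ι → ℕ → Prop) (N : ℕ) :
    cnt (fun k => ∃ i, p i k) N ≤ ∑ i, cnt (p i) N := by
  unfold cnt
  refine le_trans (Finset.card_le_card (t := Finset.univ.biUnion fun i =>
    (@Finset.filter ℕ (p i) (fun a => Classical.propDecidable (p i a)) (Finset.range N))) ?_)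
    Finset.card_biUnion_le
  intro k hk
  obtain ⟨h1, i, h2⟩ := (mem_filt (fun k => ∃ i, p i k) N k).1 hk
  exact Finset.mem_biUnion.2 ⟨i, Finset.mem_univ i, (mem_filt (p i) N k).2 ⟨h1, h2⟩⟩

theorem cnt_succ (p : ℕ → Prop) (N : ℕ) : cnt p (N + 1) ≤ cnt (fun k => p (k + 1)) N + 1 := by
  classical
  unfold cnt
  rw [Finset.range_add_one', Finset.filter_insert]
  have h1 : ((Finset.filter p (Finset.map ⟨fun i => i + 1, fun i j => by simp⟩
      (Finset.range N)))).card ≤ (Finset.filter (fun k => p (k + 1)) (Finset.range N)).card := by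
    rw [Finset.filter_map, Finset.card_map]
    exact le_of_eq rfl
  split_ifs
  · exact (Finset.card_insert_le _ _).trans (by omega)
  · exact h1.trans (by omega)

/-- the jumps of a monotone sequence -/
theorem cnt_jumps {e : ℕ → ℕ} {j₀ : ℕ} (he : ∀ j ≥ j₀, e j ≤ e (j + 1)) (B N : ℕ) :
    B * cnt (fun j => j₀ ≤ j ∧ e j + B < e (j + 1)) N ≤ e (max N j₀) := by
  classical
  induction N with
  | zero => simp [cnt]
  | succ N ih =>
    have h1 : cnt (fun j => j₀ ≤ j ∧ e j + B < e (j + 1)) (N + 1) =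
        cnt (fun j => j₀ ≤ j ∧ e j + B < e (j + 1)) N +
          if j₀ ≤ N ∧ e N + B < e (N + 1) then 1 else 0 := by
      unfold cnt
      rw [Finset.range_add_one, Finset.filter_insert]
      split_ifs with h
      · rw [Finset.card_insert_of_notMem (by simp)]
      · rfl
    rw [h1]
    split_ifs with h
    · have e1 : max N j₀ = N := by omega
      have e2 : max (N + 1) j₀ = N + 1 := by omega
      rw [e1] at ih
      rw [e2, Nat.mul_add]
      omega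
    · rcases Nat.lt_or_ge N j₀ with h2 | h2
      · have e1 : max N j₀ = j₀ := by omega
        have e2 : max (N + 1) j₀ = j₀ := by omega
        rw [e1] at ih
        rw [e2]
        simpa using ih
      · have e1 : max N j₀ = N := by omega
        have e2 : max (N + 1) j₀ = N + 1 := by omega
        rw [e1] at ih
        rw [e2]
        have := he N h2
        simp only [add_zero]
        omega

/-- **Most scales are good.** -/
theorem most_scales {ι : Type} [Fintype ι] {f : ℂ → ℂ → ℂ} {W : Set (ℂ × ℂ)}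
    (hf : ∀ p ∈ W, ContDiffAt ℂ 1 (fun p : ℂ × ℂ => f p.1 p.2) p)
    {K : Set ℂ} (hK : IsCompact K) {ρ δ₁ : ℝ} (hρ : 0 < ρ) (hδ₁ : 0 < δ₁)
    (hKW : ∀ a z, ‖a‖ < ρ → z ∈ cthickening δ₁ K → (a, z) ∈ W)
    (A : ℂ → ℂ → Prop) (hstep : ∀ a z, (a, z) ∈ W → A a (f a z) → A a z)
    (hstab : ∀ z, A 0 z → ∀ᶠ p : ℂ × ℂ in 𝓝 (0, z), A p.1 p.2)
    (hnull : volume {z : ℂ | ¬ A 0 z} = 0)
    (ζ : ι → ℂ → ℂ) (hζ : ∀ i, ∀ a, ‖a‖ < ρ → DifferentiableAt ℂ (ζ i) a)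
    (hb : ∀ i n, (f 0)^[n] (ζ i 0) ∈ K)
    {μ : ℝ} (hμ : 1 < μ) (D : ℕ) (C : ℝ) (G : ℕ → Prop) (hG : ∃ᶠ n in atTop, G n)
    (hgrow : ∀ᶠ n : ℕ in atTop, G n → ∀ i, ∀ r, 0 < r → r < ρ →
      (∀ m ≤ n, ∀ a, ‖a‖ ≤ r → (f a)^[m] (ζ i a) ∈ cthickening δ₁ K) → μ ^ n * r ^ D ≤ C)
    {θ : ℝ} (hθ0 : 0 < θ) (hθ1 : θ < 1) :
    ∃ q : ℕ, 0 < q ∧ ∀ Q ≥ q, ∀ ε η : ℝ, 0 < ε → 0 < η → ∃ N₀, ∀ n ≥ N₀, G n →
      (cnt (fun j => ¬ volume {a : ℂ | ‖a‖ ≤ θ ^ (j + 1) ∧ ∃ i, ¬ A a (ζ i a)} ≤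
        ENNReal.ofReal (ε * (θ ^ (j + 1)) ^ 2)) (n / Q) : ℝ) ≤ η * (n / Q : ℕ) := by
  classical
  -- initial radius
  obtain ⟨j₀, hj₀, hinit⟩ : ∃ j₀ : ℕ, θ ^ j₀ < ρ ∧
      ∀ i a, ‖a‖ ≤ θ ^ j₀ → ζ i a ∈ cthickening δ₁ K := by
    have h1 : ∀ᶠ a : ℂ in 𝓝 0, ∀ i, ζ i a ∈ thickening δ₁ K := by
      rw [Filter.eventually_all]
      intro i
      have h0 : ζ i 0 ∈ thickening δ₁ K := by
        have := hb i 0
        simp only [Function.iterate_zero, id] at this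
        exact self_subset_thickening hδ₁ K this
      exact (hζ i 0 (by simpa using hρ)).continuousAt.eventually (isOpen_thickening.mem_nhds h0)
    obtain ⟨η, hη, hηs⟩ := Metric.mem_nhds_iff.1 h1
    obtain ⟨j₀, hj₀⟩ := exists_pow_lt_of_lt_one (lt_min hη hρ) hθ1
    refine ⟨j₀, hj₀.trans_le (min_le_right _ _), ?_⟩
    intro i a ha
    have h2 : a ∈ ball (0 : ℂ) η := by
      rw [mem_ball_zero_iff]
      exact lt_of_le_of_lt ha (hj₀.trans_le (min_le_left _ _))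
    exact thickening_subset_cthickening _ _ (hηs h2 i)
  have hrpos : ∀ j, 0 < θ ^ j := fun j => pow_pos hθ0 j
  have hrlt : ∀ j ≥ j₀, θ ^ j < ρ := fun j hj =>
    lt_of_le_of_lt (pow_le_pow_of_le_one hθ0.le hθ1.le hj) hj₀
  obtain ⟨n₁, hn₁⟩ := Filter.eventually_atTop.1 hgrow
  -- exit times
  have hexit : ∀ n ≥ n₁, G n → ∀ j ≥ j₀, C < μ ^ n * (θ ^ j) ^ D →
      ∀ i, ∃ m ≤ n, ∃ a, ‖a‖ ≤ θ ^ j ∧ (f a)^[m] (ζ i a) ∉ cthickening δ₁ K := by
    intro n hn hGn j hj hlt i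
    by_contra hcon
    push Not at hcon
    have := hn₁ n hn hGn i (θ ^ j) (hrpos j) (hrlt j hj) (fun m hm a ha => hcon m hm a ha)
    linarith
  have hex : ∀ i, ∀ j, j₀ ≤ j → ∃ m, ∃ a, ‖a‖ ≤ θ ^ j ∧
      (f a)^[m] (ζ i a) ∉ cthickening δ₁ K := by
    intro i j hj
    have h1 : Tendsto (fun n : ℕ => μ ^ n * (θ ^ j) ^ D) atTop atTop :=
      (tendsto_pow_atTop_atTop_of_one_lt hμ).atTop_mul_const (pow_pos (hrpos j) D)
    obtain ⟨n, ⟨hn, hn2⟩, hn3⟩ := ((hG.and_eventually (h1.eventually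
      (eventually_gt_atTop C))).and_eventually (eventually_ge_atTop n₁)).exists
    obtain ⟨m, -, a, ha, ha2⟩ := hexit n hn3 hn j hj hn2 i
    exact ⟨m, a, ha, ha2⟩
  let e : ι → ℕ → ℕ := fun i j => if h : j₀ ≤ j then Nat.find (hex i j h) else 0
  have hespec : ∀ i, ∀ j ≥ j₀, ∃ a, ‖a‖ ≤ θ ^ j ∧
      (f a)^[e i j] (ζ i a) ∉ cthickening δ₁ K := by
    intro i j hj
    simp only [e, dif_pos hj]
    exact Nat.find_spec (hex i j hj)
  have hemin : ∀ i, ∀ j ≥ j₀, ∀ m < e i j, ∀ a, ‖a‖ ≤ θ ^ j →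
      (f a)^[m] (ζ i a) ∈ cthickening δ₁ K := by
    intro i j hj m hm a ha
    simp only [e, dif_pos hj] at hm
    have := Nat.find_min (hex i j hj) hm
    push Not at this
    exact this a ha
  have hele : ∀ i, ∀ j ≥ j₀, ∀ m, (∃ a, ‖a‖ ≤ θ ^ j ∧
      (f a)^[m] (ζ i a) ∉ cthickening δ₁ K) → e i j ≤ m := by
    intro i j hj m h
    simp only [e, dif_pos hj]
    exact Nat.find_min' (hex i j hj) h
  have hemono : ∀ i, ∀ j ≥ j₀, e i j ≤ e i (j + 1) := by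
    intro i j hj
    obtain ⟨a, ha, ha2⟩ := hespec i (j + 1) (by omega)
    exact hele i j hj _ ⟨a, ha.trans (pow_le_pow_of_le_one hθ0.le hθ1.le (Nat.le_succ _)), ha2⟩
  -- linear growth
  obtain ⟨q, hq0, hq⟩ : ∃ q : ℕ, 0 < q ∧ ∀ n j, q * (j + 1) ≤ n →
      C < μ ^ n * (θ ^ j) ^ D := by
    have h1 : Tendsto (fun q : ℕ => μ ^ q) atTop atTop := tendsto_pow_atTop_atTop_of_one_lt hμ
    obtain ⟨q, ⟨h2, h3⟩, h4⟩ := ((h1.eventually (eventually_gt_atTop C)).and (h1.eventually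
      (eventually_ge_atTop (1 / θ ^ D)))).and (eventually_gt_atTop 0) |>.exists
    refine ⟨q, h4, fun n j hn => ?_⟩
    have hD : 0 < θ ^ D := pow_pos hθ0 D
    have h5 : 1 ≤ μ ^ q * θ ^ D := by
      rw [div_le_iff₀ hD] at h3
      exact h3
    have h6 : μ ^ (q * (j + 1)) ≤ μ ^ n := pow_le_pow_right₀ hμ.le hn
    calc C < μ ^ q := h2
      _ = μ ^ q * 1 := by ring
      _ ≤ μ ^ q * (μ ^ q * θ ^ D) ^ j := by
          gcongr
          exact one_le_pow₀ h5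
      _ = μ ^ (q * (j + 1)) * (θ ^ j) ^ D := by
          rw [mul_pow, ← pow_mul, ← pow_mul, ← pow_mul, Nat.mul_add, pow_add, mul_one,
            Nat.mul_comm D j]
          ring
      _ ≤ μ ^ n * (θ ^ j) ^ D := by gcongr
  refine ⟨q, hq0, ?_⟩
  intro Q hQ ε η hε hη
  have hQ0 : 0 < Q := lt_of_lt_of_le hq0 hQ
  -- choose the bound for the jumps
  obtain ⟨B, hB⟩ := exists_nat_gt ((Fintype.card ι : ℝ) * (4 * Q) / η)
  have hB0 : (0 : ℝ) < B := lt_of_le_of_lt (by positivity) hB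
  have hcardB : (Fintype.card ι : ℝ) * (4 * Q) / B ≤ η := by
    rw [div_le_iff₀ hB0]
    rw [div_lt_iff₀ hη] at hB
    linarith
  have hε' : 0 < ε / (Fintype.card ι + 1) := by positivity
  have hgs : ∀ i, ∀ᶠ j in atTop, e i (j + 1) ≤ e i j + B →
      volume {a : ℂ | ‖a‖ ≤ θ ^ (j + 1) ∧ ¬ A a (ζ i a)} ≤
        ENNReal.ofReal (ε / (Fintype.card ι + 1) * (θ ^ (j + 1)) ^ 2) := fun i =>
    good_scale hf hK hρ hδ₁ hKW A hstep hstab hnull (ζ i) (hζ i) (hb i) hθ0 hθ1 hj₀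
      (hinit i) (e i) (hespec i) (hemin i) B hε'
  obtain ⟨k₀, hk₀⟩ := Filter.eventually_atTop.1 ((Filter.eventually_all.2 hgs).and
    (eventually_ge_atTop j₀))
  -- the bad scales
  have hbad : ∀ j, (¬ volume {a : ℂ | ‖a‖ ≤ θ ^ (j + 1) ∧ ∃ i, ¬ A a (ζ i a)} ≤
        ENNReal.ofReal (ε * (θ ^ (j + 1)) ^ 2)) →
      j < k₀ ∨ ∃ i, (j₀ ≤ j ∧ e i j + B < e i (j + 1)) := by
    intro j hj
    by_contra hcon
    push Not at hcon
    obtain ⟨h1, h2⟩ := hcon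
    obtain ⟨h3, h4⟩ := hk₀ j h1
    apply hj
    have h5 : {a : ℂ | ‖a‖ ≤ θ ^ (j + 1) ∧ ∃ i, ¬ A a (ζ i a)} ⊆
        ⋃ i, {a : ℂ | ‖a‖ ≤ θ ^ (j + 1) ∧ ¬ A a (ζ i a)} := by
      rintro a ⟨ha, i, hi⟩
      exact mem_iUnion.2 ⟨i, ha, hi⟩
    calc _ ≤ volume (⋃ i, {a : ℂ | ‖a‖ ≤ θ ^ (j + 1) ∧ ¬ A a (ζ i a)}) := measure_mono h5
      _ ≤ ∑ i, volume {a : ℂ | ‖a‖ ≤ θ ^ (j + 1) ∧ ¬ A a (ζ i a)} :=
          measure_iUnion_fintype_le _ _
      _ ≤ ∑ _i : ι, ENNReal.ofReal (ε / (Fintype.card ι + 1) * (θ ^ (j + 1)) ^ 2) :=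
          Finset.sum_le_sum fun i _ => h3 i (h2 i h4)
      _ = ENNReal.ofReal (∑ _i : ι, ε / (Fintype.card ι + 1) * (θ ^ (j + 1)) ^ 2) := by
          rw [ENNReal.ofReal_sum_of_nonneg]
          intro i _
          positivity
      _ ≤ _ := by
          apply ENNReal.ofReal_le_ofReal
          rw [Finset.sum_const, Finset.card_univ, nsmul_eq_mul]
          have h6 : (Fintype.card ι : ℝ) * (ε / (Fintype.card ι + 1)) ≤ ε := by
            rw [← mul_div_assoc, div_le_iff₀ (by positivity)]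
            nlinarith [(Nat.cast_nonneg (Fintype.card ι) : (0 : ℝ) ≤ _)]
          calc (Fintype.card ι : ℝ) * (ε / (Fintype.card ι + 1) * (θ ^ (j + 1)) ^ 2)
              = (Fintype.card ι : ℝ) * (ε / (Fintype.card ι + 1)) * (θ ^ (j + 1)) ^ 2 := by ring
            _ ≤ ε * (θ ^ (j + 1)) ^ 2 := by gcongr
  -- counting
  obtain ⟨N₁, hN₁⟩ := exists_nat_gt ((2 * (k₀ + 1) : ℝ) / η)
  refine ⟨max n₁ (Q * (max (N₁ + 1) (j₀ + 2))), ?_⟩
  intro n hn hGn
  set N := n / Q with hN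
  have hNlo : max (N₁ + 1) (j₀ + 2) ≤ N := by
    rw [hN, Nat.le_div_iff_mul_le hQ0, Nat.mul_comm]
    exact (le_max_right _ _).trans hn
  have hNQ : Q * N ≤ n := Nat.mul_div_le n Q
  have hnN : n < Q * (N + 1) := Nat.lt_mul_div_succ n hQ0
  have hN0 : (1 : ℝ) ≤ N := by
    have : 1 ≤ N := by omega
    exact_mod_cast this
  -- the exit time at the scale `N - 1`
  have heN : ∀ i, e i (N - 1) ≤ n := by
    intro i
    have h1 : q * ((N - 1) + 1) ≤ n := by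
      have e1 : (N - 1) + 1 = N := by omega
      rw [e1]
      exact (Nat.mul_le_mul_right N hQ).trans hNQ
    obtain ⟨m, hm, ha⟩ := hexit n ((le_max_left _ _).trans hn) hGn (N - 1) (by omega)
      (hq n (N - 1) h1) i
    exact (hele i (N - 1) (by omega) m ha).trans hm
  have hc1 : ∀ i, B * cnt (fun j => j₀ ≤ j ∧ e i j + B < e i (j + 1)) (N - 1) ≤ n := by
    intro i
    refine (cnt_jumps (hemono i) B (N - 1)).trans ?_
    have e1 : max (N - 1) j₀ = N - 1 := by omega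
    rw [e1]
    exact heN i
  have hc2 : ∀ i, (cnt (fun j => j₀ ≤ j ∧ e i j + B < e i (j + 1)) (N - 1) : ℝ) ≤
      2 * Q * N / B := by
    intro i
    rw [le_div_iff₀ hB0]
    have h1 : (B * cnt (fun j => j₀ ≤ j ∧ e i j + B < e i (j + 1)) (N - 1) : ℝ) ≤ n := by
      exact_mod_cast hc1 i
    have h2 : (n : ℝ) ≤ Q * (N + 1) := by
      exact_mod_cast hnN.le
    have h3 : (0 : ℝ) < Q := by exact_mod_cast hQ0
    nlinarith
  have hsplit : ∀ (p : ℕ → Prop), cnt p N ≤ cnt p (N - 1) + 1 := by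
    intro p
    obtain ⟨N', hN'⟩ : ∃ N', N = N' + 1 := ⟨N - 1, by omega⟩
    rw [hN']
    simp only [Nat.add_sub_cancel]
    unfold cnt
    rw [Finset.range_add_one, Finset.filter_insert]
    split_ifs
    · exact Finset.card_insert_le _ _
    · omega
  have hc3 : cnt (fun j => ¬ volume {a : ℂ | ‖a‖ ≤ θ ^ (j + 1) ∧ ∃ i, ¬ A a (ζ i a)} ≤
        ENNReal.ofReal (ε * (θ ^ (j + 1)) ^ 2)) N ≤
      k₀ + ∑ i, cnt (fun j => j₀ ≤ j ∧ e i j + B < e i (j + 1)) (N - 1) + 1 := by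
    refine (hsplit _).trans ?_
    gcongr
    refine (cnt_mono hbad (N - 1)).trans ((cnt_or _ _ _).trans ?_)
    gcongr
    · exact cnt_late (fun k hk h => by omega) _
    · exact cnt_exists _ _
  have hc4 : (∑ i, cnt (fun j => j₀ ≤ j ∧ e i j + B < e i (j + 1)) (N - 1) : ℝ) ≤
      η / 2 * N := by
    calc (∑ i, cnt (fun j => j₀ ≤ j ∧ e i j + B < e i (j + 1)) (N - 1) : ℝ)
        ≤ ∑ _i : ι, 2 * Q * N / (B : ℝ) := Finset.sum_le_sum fun i _ => hc2 i
      _ = (Fintype.card ι : ℝ) * (4 * Q) / B / 2 * N := by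
          rw [Finset.sum_const, Finset.card_univ, nsmul_eq_mul]
          ring
      _ ≤ η / 2 * N := by gcongr
  have hc5 : (k₀ : ℝ) + 1 ≤ η / 2 * N := by
    have h1 : N₁ ≤ N := by omega
    have h2 : (N₁ : ℝ) ≤ N := by exact_mod_cast h1
    rw [div_lt_iff₀ hη] at hN₁
    nlinarith
  have h6 : (cnt (fun j => ¬ volume {a : ℂ | ‖a‖ ≤ θ ^ (j + 1) ∧ ∃ i, ¬ A a (ζ i a)} ≤
        ENNReal.ofReal (ε * (θ ^ (j + 1)) ^ 2)) N : ℝ) ≤
      k₀ + ∑ i, (cnt (fun j => j₀ ≤ j ∧ e i j + B < e i (j + 1)) (N - 1) : ℝ) + 1 := by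
    exact_mod_cast hc3
  linarith

end Pool.Agent.H211.LD
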