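import Pool.Agent.H211.LD.Space

/-! Averages over the scales. -/

set_option autoImplicit false

open Filter Topology Metric Set MeasureTheory
open scoped ENNReal Pointwise

namespace Pool.Agent.H211.LD

/-- the average of the first `N` terms -/
noncomputable def avg (x : ℕ → ℝ≥0∞) (N : ℕ) : ℝ≥0∞ := (∑ k ∈ Finset.range N, x k) / N

theorem avg_mono {x y : ℕ → ℝ≥0∞} (h : ∀ k, x k ≤ y k) (N : ℕ) : avg x N ≤ avg y N := by
  unfold avg
  gcongr with k
  exact h k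

theorem avg_le {x : ℕ → ℝ≥0∞} {B : ℝ≥0∞} (h : ∀ k, x k ≤ B) (N : ℕ) : avg x N ≤ B := by
  unfold avg
  apply ENNReal.div_le_of_le_mul
  calc ∑ k ∈ Finset.range N, x k ≤ ∑ _k ∈ Finset.range N, B := Finset.sum_le_sum fun k _ => h k
    _ = B * N := by rw [Finset.sum_const, Finset.card_range, nsmul_eq_mul, mul_comm]

/-- few large terms -/
theorem avg_cnt {x : ℕ → ℝ≥0∞} {B ε η : ℝ} (hB : 0 ≤ B) (hε : 0 ≤ ε)
    (h : ∀ k, x k ≤ ENNReal.ofReal B) {N : ℕ}
    (hN : (cnt (fun k => ¬ x k ≤ ENNReal.ofReal ε) N : ℝ) ≤ η * N) (hN0 : 0 < N) :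
    avg x N ≤ ENNReal.ofReal (ε + B * η) := by
  classical
  have hN1 : (0 : ℝ) < N := by exact_mod_cast hN0
  have hη : 0 ≤ η := by
    have h1 : (0 : ℝ) ≤ (cnt (fun k => ¬ x k ≤ ENNReal.ofReal ε) N : ℝ) := Nat.cast_nonneg _
    by_contra hcon
    push Not at hcon
    nlinarith
  unfold avg
  apply ENNReal.div_le_of_le_mul
  have h1 : ∀ k ∈ Finset.range N, x k ≤ ENNReal.ofReal ε +
      (if ¬ x k ≤ ENNReal.ofReal ε then ENNReal.ofReal B else 0) := by
    intro k _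
    by_cases h2 : x k ≤ ENNReal.ofReal ε
    · exact h2.trans le_self_add
    · rw [if_pos h2]
      exact (h k).trans le_add_self
  have h2 : (∑ k ∈ Finset.range N, (if ¬ x k ≤ ENNReal.ofReal ε then ENNReal.ofReal B else 0)) =
      (cnt (fun k => ¬ x k ≤ ENNReal.ofReal ε) N : ℝ≥0∞) * ENNReal.ofReal B := by
    rw [← Finset.sum_filter, Finset.sum_const, nsmul_eq_mul]
    unfold cnt
    congr!
  calc ∑ k ∈ Finset.range N, x k ≤ ∑ k ∈ Finset.range N, (ENNReal.ofReal ε +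
      (if ¬ x k ≤ ENNReal.ofReal ε then ENNReal.ofReal B else 0)) := Finset.sum_le_sum h1
    _ = N * ENNReal.ofReal ε +
        (cnt (fun k => ¬ x k ≤ ENNReal.ofReal ε) N : ℝ≥0∞) * ENNReal.ofReal B := by
        rw [Finset.sum_add_distrib, h2, Finset.sum_const, Finset.card_range, nsmul_eq_mul]
    _ ≤ ENNReal.ofReal (ε + B * η) * N := by
        have e1 : (N : ℝ≥0∞) = ENNReal.ofReal N := (ENNReal.ofReal_natCast N).symm
        have e2 : (cnt (fun k => ¬ x k ≤ ENNReal.ofReal ε) N : ℝ≥0∞) =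
            ENNReal.ofReal (cnt (fun k => ¬ x k ≤ ENNReal.ofReal ε) N) :=
          (ENNReal.ofReal_natCast _).symm
        rw [e1, e2, ← ENNReal.ofReal_mul (by positivity), ← ENNReal.ofReal_mul (by positivity),
          ← ENNReal.ofReal_add (by positivity) (by positivity),
          ← ENNReal.ofReal_mul (by positivity)]
        apply ENNReal.ofReal_le_ofReal
        nlinarith

/-- averages and integrals -/
theorem avg_int {X : Type} [MeasurableSpace X] {ν : Measure X} {w : ℕ → X → ℝ≥0∞}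
    (hw : ∀ k, Measurable (w k)) (N : ℕ) :
    avg (fun k => ∫⁻ x, w k x ∂ν) N = ∫⁻ x, avg (fun k => w k x) N ∂ν := by
  unfold avg
  simp only [ENNReal.div_eq_inv_mul]
  rw [lintegral_const_mul _ (by fun_prop), lintegral_finsetSum _ (fun k _ => hw k)]

theorem avg_meas {X : Type} [MeasurableSpace X] {w : ℕ → X → ℝ≥0∞}
    (hw : ∀ k, Measurable (w k)) (N : ℕ) : Measurable fun x => avg (fun k => w k x) N := by
  unfold avg
  fun_prop

/-- dominated convergence for averages -/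
theorem avg_dom {X : Type} [MeasurableSpace X] {ν : Measure X} [IsFiniteMeasure ν]
    {w : ℕ → X → ℝ≥0∞} (hw : ∀ k, Measurable (w k)) {B : ℝ} (hB : ∀ k x, w k x ≤ ENNReal.ofReal B)
    (hlim : ∀ᵐ x ∂ν, Tendsto (fun N => avg (fun k => w k x) N) atTop (𝓝 0)) :
    Tendsto (fun N => avg (fun k => ∫⁻ x, w k x ∂ν) N) atTop (𝓝 0) := by
  simp only [avg_int hw]
  have h1 := tendsto_lintegral_of_dominated_convergence (μ := ν)
    (F := fun N x => avg (fun k => w k x) N) (f := fun _ => 0) (fun _ => ENNReal.ofReal B)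
    (fun N => avg_meas hw N) (fun N => Eventually.of_forall fun x => avg_le (fun k => hB k x) N)
    (by
      rw [lintegral_const]
      exact ENNReal.mul_ne_top ENNReal.ofReal_ne_top (measure_ne_top _ _)) hlim
  simpa using h1

/-- comparison of averages with a shift -/
theorem avg_shift {y z : ℕ → ℝ≥0∞} {C : ℝ≥0∞} {k₀ m₀ : ℕ} (hy : ∀ k, y k ≤ 1)
    (h : ∀ k ≥ k₀, y (k + m₀) ≤ C * z k) (N : ℕ) :
    avg y N ≤ ((k₀ + m₀ : ℕ) : ℝ≥0∞) / N + C * avg z N := by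
  unfold avg
  rw [← mul_div_assoc, ← ENNReal.add_div]
  apply ENNReal.div_le_div_right
  rcases Nat.lt_or_ge N (k₀ + m₀) with h1 | h1
  · calc ∑ k ∈ Finset.range N, y k ≤ ∑ _k ∈ Finset.range N, 1 :=
        Finset.sum_le_sum fun k _ => hy k
      _ = ((N : ℕ) : ℝ≥0∞) := by simp
      _ ≤ ((k₀ + m₀ : ℕ) : ℝ≥0∞) := by exact_mod_cast h1.le
      _ ≤ _ := le_self_add
  · have h2 : ∀ m, ∑ k ∈ Finset.range (k₀ + m₀ + m), y k ≤
        ((k₀ + m₀ : ℕ) : ℝ≥0∞) + C * ∑ k ∈ Finset.range (k₀ + m), z k := by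
      intro m
      induction m with
      | zero =>
        calc ∑ k ∈ Finset.range (k₀ + m₀ + 0), y k ≤ ∑ _k ∈ Finset.range (k₀ + m₀ + 0), 1 :=
              Finset.sum_le_sum fun k _ => hy k
          _ = ((k₀ + m₀ : ℕ) : ℝ≥0∞) := by simp
          _ ≤ _ := le_self_add
      | succ m ihm =>
        rw [← add_assoc, Finset.sum_range_succ, ← add_assoc, Finset.sum_range_succ, mul_add,
          ← add_assoc]
        refine add_le_add ihm ?_
        have := h (k₀ + m) (by omega)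
        rwa [show k₀ + m + m₀ = k₀ + m₀ + m by ring] at this
    obtain ⟨m, hm⟩ : ∃ m, N = k₀ + m₀ + m := ⟨N - (k₀ + m₀), by omega⟩
    rw [hm]
    refine (h2 m).trans ?_
    gcongr
    omega

/-- the limit of the averages -/
theorem avg_shift_tendsto {y z : ℕ → ℝ≥0∞} {C : ℝ≥0∞} {k₀ m₀ : ℕ} (hC : C ≠ ⊤)
    (hy : ∀ k, y k ≤ 1) (h : ∀ k ≥ k₀, y (k + m₀) ≤ C * z k)
    (hz : Tendsto (fun N => avg z N) atTop (𝓝 0)) :
    Tendsto (fun N => avg y N) atTop (𝓝 0) := by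
  refine tendsto_of_tendsto_of_tendsto_of_le_of_le tendsto_const_nhds ?_ (fun _ => zero_le)
    (fun N => avg_shift hy h N)
  have h1 : Tendsto (fun N : ℕ => ((k₀ + m₀ : ℕ) : ℝ≥0∞) / N) atTop (𝓝 0) := by
    have h3 := ENNReal.Tendsto.const_div (a := ((k₀ + m₀ : ℕ) : ℝ≥0∞))
      ENNReal.tendsto_nat_nhds_top (Or.inr (ENNReal.natCast_ne_top _))
    simpa using h3
  have h2 : Tendsto (fun N => C * avg z N) atTop (𝓝 0) := by
    have := ENNReal.Tendsto.const_mul (a := C) hz (Or.inr hC)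
    simpa using this
  simpa using h1.add h2

/-- the lower limit of the averages -/
theorem avg_shift_freq {y z : ℕ → ℝ≥0∞} {C : ℝ≥0∞} {k₀ m₀ : ℕ} (hC : C ≠ ⊤)
    (hy : ∀ k, y k ≤ 1) (h : ∀ k ≥ k₀, y (k + m₀) ≤ C * z k)
    (hz : ∀ ε : ℝ≥0∞, 0 < ε → ∃ᶠ N in atTop, avg z N ≤ ε) :
    ∀ ε : ℝ≥0∞, 0 < ε → ∃ᶠ N in atTop, avg y N ≤ ε := by
  intro ε hε
  have hε2 : 0 < ε / 2 := ENNReal.half_pos hε.ne'
  have h1 : Tendsto (fun N : ℕ => ((k₀ + m₀ : ℕ) : ℝ≥0∞) / N) atTop (𝓝 0) := by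
    have h3 := ENNReal.Tendsto.const_div (a := ((k₀ + m₀ : ℕ) : ℝ≥0∞))
      ENNReal.tendsto_nat_nhds_top (Or.inr (ENNReal.natCast_ne_top _))
    simpa using h3
  have h2 : ∀ᶠ N : ℕ in atTop, ((k₀ + m₀ : ℕ) : ℝ≥0∞) / N < ε / 2 := h1.eventually_lt_const hε2
  rcases eq_or_ne C 0 with hC0 | hC0
  · refine (h2.mono fun N hN => ?_).frequently
    refine (avg_shift hy h N).trans ?_
    rw [hC0, zero_mul, add_zero]
    exact hN.le.trans ENNReal.half_le_self
  · refine ((hz (ε / 2 / C) (ENNReal.div_pos hε2.ne' hC)).and_eventually h2).mono ?_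
    rintro N ⟨h3, h4⟩
    calc avg y N ≤ ((k₀ + m₀ : ℕ) : ℝ≥0∞) / N + C * avg z N := avg_shift hy h N
      _ ≤ ε / 2 + C * (ε / 2 / C) := by gcongr
      _ ≤ ε / 2 + ε / 2 := by
          gcongr
          exact ENNReal.mul_div_le
      _ = ε := ENNReal.add_halves ε

end Pool.Agent.H211.LD
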