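import Pool.Agent.H211.LD.Avg

/-! Proportions in balls and in discs. -/

set_option autoImplicit false

open Filter Topology Metric Set MeasureTheory Polynomial
open scoped ENNReal Pointwise

namespace Pool.Agent.H211.LD

/-- the proportion of the set `B` in the ball of radius `2 ^ (- k)` around `a₀` -/
noncomputable def prop {n : ℕ} (B : Set (Fin n → ℂ)) (a₀ : Fin n → ℂ) (k : ℕ) : ℝ≥0∞ :=
  volume (B ∩ ball a₀ ((1 / 2) ^ k)) / volume (ball a₀ ((1 / 2) ^ k))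

theorem prop_le {n : ℕ} (B : Set (Fin n → ℂ)) (a₀ : Fin n → ℂ) (k : ℕ) : prop B a₀ k ≤ 1 := by
  unfold prop
  apply ENNReal.div_le_of_le_mul
  rw [one_mul]
  exact measure_mono inter_subset_right

/-- the proportion of the set `B`, near `a₀`, in the direction `b` (up to a factor) -/
noncomputable def lin {n : ℕ} (B : Set (Fin n → ℂ)) (a₀ : Fin n → ℂ) (r₀ : ℝ) (k : ℕ)
    (b : Fin n → ℂ) : ℝ≥0∞ :=
  volume {s : ℂ | ‖s‖ < (1 / 2) ^ (k + 1) ∧ a₀ + s • b ∈ B ∩ ball a₀ r₀} /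
    ENNReal.ofReal (((1 / 2) ^ (k + 1)) ^ 2)

theorem lin_meas {n : ℕ} {B : Set (Fin n → ℂ)} {a₀ : Fin n → ℂ} {r₀ : ℝ}
    (hB : MeasurableSet (B ∩ ball a₀ r₀)) (k : ℕ) : Measurable (lin B a₀ r₀ k) := by
  unfold lin
  refine Measurable.div_const ?_ _
  have h0 : Measurable (fun p : (Fin n → ℂ) × ℂ => ‖p.2‖) := by fun_prop
  have h1 : Measurable (fun p : (Fin n → ℂ) × ℂ => a₀ + p.2 • p.1) := by fun_prop
  have hS : MeasurableSet {p : (Fin n → ℂ) × ℂ | ‖p.2‖ < (1 / 2) ^ (k + 1) ∧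
      a₀ + p.2 • p.1 ∈ B ∩ ball a₀ r₀} := (measurableSet_lt h0 measurable_const).inter (h1 hB)
  exact measurable_measure_prodMk_left hS

theorem lin_le {n : ℕ} (B : Set (Fin n → ℂ)) (a₀ : Fin n → ℂ) (r₀ : ℝ) (k : ℕ)
    (b : Fin n → ℂ) : lin B a₀ r₀ k b ≤ ENNReal.ofReal 4 := by
  unfold lin
  apply ENNReal.div_le_of_le_mul
  calc volume {s : ℂ | ‖s‖ < (1 / 2) ^ (k + 1) ∧ a₀ + s • b ∈ B ∩ ball a₀ r₀}
      ≤ volume (ball (0 : ℂ) ((1 / 2) ^ (k + 1))) :=
        measure_mono fun s hs => mem_ball_zero_iff.2 hs.1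
    _ = ENNReal.ofReal (((1 / 2) ^ (k + 1)) ^ 2) * ENNReal.ofReal Real.pi := by
        rw [Complex.volume_ball, ← ENNReal.ofReal_pow (by positivity)]
        congr 1
        rw [← NNReal.coe_real_pi, ENNReal.ofReal_coe_nnreal]
    _ ≤ _ := by
        rw [mul_comm]
        gcongr
        exact Real.pi_le_four

/-- the proportion in the balls is bounded by the mean proportion in the directions -/
theorem ball_prop {n : ℕ} {a₀ : Fin n → ℂ} {B : Set (Fin n → ℂ)} {r₀ : ℝ} (hr₀ : 0 < r₀)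
    (hB : MeasurableSet (B ∩ ball a₀ r₀)) : ∃ C : ℝ≥0∞, C ≠ ⊤ ∧ ∃ k₀ : ℕ, ∀ k ≥ k₀,
      prop B a₀ (k + 2) ≤ C * ∫⁻ b in ball (0 : Fin n → ℂ) 1, lin B a₀ r₀ k b := by
  set F := Module.finrank ℝ (Fin n → ℂ) with hF
  set β := (volume : Measure (Fin n → ℂ)) (ball 0 1) with hβ
  have hβ0 : β ≠ 0 := (measure_ball_pos _ _ one_pos).ne'
  have hβ1 : β ≠ ⊤ := measure_ball_lt_top.ne
  obtain ⟨k₀, hk₀⟩ := exists_pow_lt_of_lt_one hr₀ (by norm_num : (1 / 2 : ℝ) < 1)
  refine ⟨ENNReal.ofReal (16 * 2 ^ F) / β, ENNReal.div_ne_top ENNReal.ofReal_ne_top hβ0, k₀, ?_⟩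
  intro k hk
  set r : ℝ := (1 / 2) ^ (k + 1) with hr
  have hr0 : 0 < r := by positivity
  have hr2 : ((1 / 2 : ℝ)) ^ (k + 2) = r / 2 := by rw [hr, pow_succ _ (k + 1)]; ring
  have hrr : r / 2 ≤ r₀ := by
    rw [← hr2]
    exact (pow_le_pow_of_le_one (by norm_num) (by norm_num) (by omega)).trans hk₀.le
  -- translate
  set M : Set (Fin n → ℂ) := (fun x => a₀ + x) ⁻¹' (B ∩ ball a₀ r₀) with hM
  have hMm : MeasurableSet M := (measurable_const_add a₀) hB
  have h1 : volume (B ∩ ball a₀ (r / 2)) = volume (M ∩ ball 0 (r / 2)) := by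
    rw [← measure_preimage_add volume a₀ (B ∩ ball a₀ (r / 2))]
    congr 1
    ext x
    simp only [hM, mem_preimage, mem_inter_iff, mem_ball, dist_eq_norm, add_sub_cancel_left,
      sub_zero]
    constructor
    · rintro ⟨h, h'⟩
      exact ⟨⟨h, h'.trans_le hrr⟩, h'⟩
    · rintro ⟨⟨h, -⟩, h'⟩
      exact ⟨h, h'⟩
  have h2 := average hMm hr0
  have h3 : volume (ball a₀ (r / 2)) = ENNReal.ofReal ((r / 2) ^ F) * β := by
    rw [Measure.addHaar_ball_of_pos _ _ (by positivity)]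
  have h4 : ∫⁻ b in ball (0 : Fin n → ℂ) 1, lin B a₀ r₀ k b =
      (∫⁻ b in ball (0 : Fin n → ℂ) 1, volume {s : ℂ | ‖s‖ < r ∧ s • b ∈ M}) /
        ENNReal.ofReal (r ^ 2) := by
    simp only [lin, div_eq_mul_inv]
    rw [lintegral_mul_const']
    · rfl
    · simp only [ne_eq, ENNReal.inv_eq_top, ENNReal.ofReal_eq_zero, not_le]
      positivity
  rw [h4, prop, hr2, h1, h3]
  set I := ∫⁻ b in ball (0 : Fin n → ℂ) 1, volume {s : ℂ | ‖s‖ < r ∧ s • b ∈ M} with hI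
  have hx0 : ENNReal.ofReal (r ^ 2) ≠ 0 := by
    rw [ne_eq, ENNReal.ofReal_eq_zero, not_le]
    positivity
  have hy0 : ENNReal.ofReal ((r / 2) ^ F) ≠ 0 := by
    rw [ne_eq, ENNReal.ofReal_eq_zero, not_le]
    positivity
  have h5 : ENNReal.ofReal (16 * r ^ F) = ENNReal.ofReal (16 * 2 ^ F) *
      ENNReal.ofReal ((r / 2) ^ F) := by
    rw [← ENNReal.ofReal_mul (by positivity)]
    congr 1
    rw [div_pow]
    field_simp
  apply ENNReal.div_le_of_le_mul
  have h6 : volume (M ∩ ball 0 (r / 2)) ≤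
      ENNReal.ofReal (16 * r ^ F) * I / ENNReal.ofReal (r ^ 2) := by
    rw [ENNReal.le_div_iff_mul_le (Or.inl hx0) (Or.inl ENNReal.ofReal_ne_top), mul_comm]
    exact h2
  refine h6.trans (le_of_eq ?_)
  rw [h5]
  calc ENNReal.ofReal (16 * 2 ^ F) * ENNReal.ofReal ((r / 2) ^ F) * I / ENNReal.ofReal (r ^ 2)
      = ENNReal.ofReal (16 * 2 ^ F) * 1 * (I / ENNReal.ofReal (r ^ 2)) *
          ENNReal.ofReal ((r / 2) ^ F) := by
        rw [mul_div_assoc]
        ring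
    _ = ENNReal.ofReal (16 * 2 ^ F) * (β⁻¹ * β) * (I / ENNReal.ofReal (r ^ 2)) *
          ENNReal.ofReal ((r / 2) ^ F) := by
        rw [ENNReal.inv_mul_cancel hβ0 hβ1]
    _ = _ := by
        rw [div_eq_mul_inv (ENNReal.ofReal (16 * 2 ^ F))]
        ring

/-- the polynomial as a linear function of its coefficients -/
noncomputable def polL (n : ℕ) : (Fin n → ℂ) →ₗ[ℂ] ℂ[X] where
  toFun a := pol a
  map_add' a b := by
    have := pol_add_smul a b 1
    simpa using this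
  map_smul' s a := by
    have h1 : pol (0 : Fin n → ℂ) = 0 := by simp [pol]
    have := pol_add_smul 0 a s
    rw [zero_add, h1, zero_add] at this
    rw [this, RingHom.id_apply, smul_eq_C_mul]

/-- proper subspaces are null sets -/
theorem proper_null {n : ℕ} {V : Submodule ℂ (Fin n → ℂ)} (hV : V ≠ ⊤) :
    volume (V : Set (Fin n → ℂ)) = 0 := by
  have h1 := Measure.addHaar_submodule (volume : Measure (Fin n → ℂ))
    (V.restrictScalars ℝ) (by
      intro h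
      apply hV
      rw [eq_top_iff]
      intro x _
      have : x ∈ V.restrictScalars ℝ := by rw [h]; trivial
      exact this)
  exact h1

end Pool.Agent.H211.LD
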