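import Pool.Agent.H211.LD.Ball

/-! Lines and balls in the space of coefficients. -/

set_option autoImplicit false

open Filter Topology Metric Set MeasureTheory Polynomial
open scoped ENNReal Pointwise

namespace Pool.Agent.H211.LD

open Pool.Agent.X325.EP
open Pool.Agent.H792R2.CE Pool.Agent.H792R2

/-- the coefficients of the polynomials with a critical point which is not good -/
def bad (A : (ℂ → ℂ) → ℂ → Prop) (d : ℕ) : Set (Fin (d + 1) → ℂ) :=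
  {a | ∃ c, deriv (ev a) c = 0 ∧ ¬ A (ev a) c}

/-- the times at which the derivatives have grown -/
def GrE (A : (ℂ → ℂ) → ℂ → Prop) {d : ℕ} (a : Fin (d + 1) → ℂ) (μ : ℝ) (n : ℕ) : Prop :=
  ∀ c : ℂ, deriv (ev a) c = 0 → A (ev a) c ∨ ∃ m ≤ n, μ ^ n ≤ ‖deriv ((ev a)^[m]) (ev a c)‖

theorem ev_eq {n : ℕ} (a : Fin n → ℂ) : ev a = fun z => (pol a).eval z := by
  funext z
  rw [pol_eval]

theorem ev_rf {n : ℕ} (a : Fin n → ℂ) : rf (pol a) 1 = ev a := by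
  rw [rf_one, ev_eq]

theorem gr_iff {A : (ℂ → ℂ) → ℂ → Prop} {d : ℕ} (a : Fin (d + 1) → ℂ) (μ : ℝ) (n : ℕ) :
    Gr A (pol a) 1 μ n ↔ GrE A a μ n := by
  unfold Gr GrE
  simp only [ev_rf, wr_one, deriv_ev]

theorem bad_meas {A : (ℂ → ℂ) → ℂ → Prop} (hA : PredE A) {d : ℕ} (hd : 2 ≤ d)
    {a₀ : Fin (d + 1) → ℂ} (h0 : a₀ (Fin.last d) ≠ 0) :
    ∃ r₀ : ℝ, 0 < r₀ ∧ MeasurableSet (bad A d ∩ ball a₀ r₀) := by
  refine ⟨‖a₀ (Fin.last d)‖, norm_pos_iff.2 h0, ?_⟩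
  have h1 : bad A d ∩ ball a₀ ‖a₀ (Fin.last d)‖ = ball a₀ ‖a₀ (Fin.last d)‖ \
      {a : Fin (d + 1) → ℂ | a (Fin.last d) ≠ 0 ∧ ∀ c, deriv (ev a) c = 0 → A (ev a) c} := by
    ext a
    constructor
    · rintro ⟨⟨c, hc, hAc⟩, h2⟩
      exact ⟨h2, fun h3 => hAc (h3.2 c hc)⟩
    · rintro ⟨h2, h3⟩
      refine ⟨?_, h2⟩
      have h4 : a (Fin.last d) ≠ 0 := by
        intro h5
        rw [mem_ball, dist_eq_norm] at h2
        have h6 := norm_le_pi_norm (a - a₀) (Fin.last d)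
        rw [Pi.sub_apply, h5, zero_sub, norm_neg] at h6
        linarith
      by_contra h5
      apply h3
      refine ⟨h4, fun c hc => ?_⟩
      by_contra h6
      exact h5 ⟨c, hc, h6⟩
  rw [h1]
  exact measurableSet_ball.diff (good_open hA hd).measurableSet

/-- **Lines.** -/
theorem lines {A : (ℂ → ℂ) → ℂ → Prop} (hA : PredE A) {d : ℕ} (hd : 2 ≤ d)
    {a₀ : Fin (d + 1) → ℂ} (h0 : a₀ (Fin.last d) ≠ 0)
    (hnull : volume {z : ℂ | ¬ A (ev a₀) z} = 0) {μ : ℝ} (hμ : 1 < μ)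
    (hexp : ∃ᶠ n : ℕ in atTop, GrE A a₀ μ n)
    (hsimple : ∀ c : ℂ, deriv (ev a₀) c = 0 → A (ev a₀) c ∨ deriv (deriv (ev a₀)) c = 0 ∨
        Summable fun m => ‖deriv ((ev a₀)^[m]) (ev a₀ c)‖⁻¹) :
    ∃ 𝒱 : Finset (Submodule ℂ (Fin (d + 1) → ℂ)), 𝒱.card ≤ 2 * (d - 1) ∧
      (∀ V ∈ 𝒱, V ≠ ⊤) ∧
      ∀ b : Fin (d + 1) → ℂ, (∀ V ∈ 𝒱, b ∉ V) →
        ∃ q : ℕ, 0 < q ∧ ∀ Q ≥ q, ∀ ε η : ℝ, 0 < ε → 0 < η → ∃ N₀, ∀ n ≥ N₀, GrE A a₀ μ n →
          (cnt (fun k => ¬ volume {s : ℂ | ‖s‖ < (1 / 2) ^ (k + 1) ∧ a₀ + s • b ∈ bad A d} ≤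
            ENNReal.ofReal (ε * ((1 / 2) ^ (k + 1)) ^ 2)) (n / Q) : ℝ) ≤ η * (n / Q : ℕ) := by
  classical
  have hP0 : wr (pol a₀) 1 ≠ 0 := by
    rw [wr_one]
    intro h
    have h1 := Polynomial.derivative_eq_zero.1 h
    rw [pol_natDegree h0] at h1
    omega
  obtain ⟨𝒱, h𝒱1, h𝒱2, h𝒱3⟩ := main_scales hA.toPred (P := pol a₀) hd (pol_natDegree h0)
    (by
      rw [ev_rf]
      exact hnull) hμ
    (by
      simp only [gr_iff]
      exact hexp)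
    (by
      intro c hc
      rw [wr_one, ← deriv_ev] at hc
      rw [ev_rf]
      rcases hsimple c hc with h | h | h
      · exact Or.inl h
      · refine Or.inr (Or.inl ?_)
        have h2 : 1 < (wr (pol a₀) 1).rootMultiplicity c := by
          rw [Polynomial.one_lt_rootMultiplicity_iff_isRoot hP0, wr_one]
          refine ⟨?_, ?_⟩
          · rw [IsRoot.def, ← deriv_ev]
            exact hc
          · rw [IsRoot.def]
            have h3 : deriv (ev a₀) = fun z => (derivative (pol a₀)).eval z := by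
              funext z
              rw [deriv_ev]
            rw [h3, Polynomial.deriv] at h
            exact h
        exact h2
      · exact Or.inr (Or.inr h))
  refine ⟨𝒱.image fun V => V.comap (polL (d + 1)), Finset.card_image_le.trans h𝒱1, ?_, ?_⟩
  · intro V hV
    obtain ⟨W, hW, rfl⟩ := Finset.mem_image.1 hV
    obtain ⟨H, hH1, hH2⟩ := h𝒱2 W hW
    intro htop
    apply hH2
    have h1 : (fun i : Fin (d + 1) => H.coeff i) ∈ W.comap (polL (d + 1)) := by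
      rw [htop]
      trivial
    have h2 : pol (fun i : Fin (d + 1) => H.coeff i) = H := by
      ext j
      rw [pol_coeff]
      split_ifs with h
      · rfl
      · exact (Polynomial.coeff_eq_zero_of_natDegree_lt (by omega)).symm
    rw [← h2]
    exact h1
  · intro b hb
    have h1 := h𝒱3 (pol b) (pol_natDegree_le b) (fun V hV h =>
      hb _ (Finset.mem_image.2 ⟨V, hV, rfl⟩) h)
    simp only [gr_iff, ← pol_add_smul, ← deriv_ev, ← ev_eq] at h1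
    exact h1

/-- **Weakly expanding polynomials, in one line**: along the times at which the derivatives have
grown, the mean proportion tends to zero. -/
theorem line_avg {A : (ℂ → ℂ) → ℂ → Prop} {d : ℕ} {a₀ b : Fin (d + 1) → ℂ} {G : ℕ → Prop}
    {Q : ℕ} (hQ : 0 < Q)
    (h : ∀ ε η : ℝ, 0 < ε → 0 < η → ∃ N₀, ∀ n ≥ N₀, G n →
          (cnt (fun k => ¬ volume {s : ℂ | ‖s‖ < (1 / 2) ^ (k + 1) ∧ a₀ + s • b ∈ bad A d} ≤
            ENNReal.ofReal (ε * ((1 / 2) ^ (k + 1)) ^ 2)) (n / Q) : ℝ) ≤ η * (n / Q : ℕ))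
    (r₀ : ℝ) {δ : ℝ≥0∞} (hδ : 0 < δ) :
    ∃ N₀, ∀ n ≥ N₀, G n → avg (fun k => lin (bad A d) a₀ r₀ k b) (n / Q) ≤ δ := by
  obtain ⟨δ', hδ', hδδ⟩ : ∃ δ' : ℝ, 0 < δ' ∧ ENNReal.ofReal δ' ≤ δ := by
    rcases eq_or_ne δ ⊤ with h1 | h1
    · exact ⟨1, one_pos, by rw [h1]; exact le_top⟩
    · exact ⟨δ.toReal, ENNReal.toReal_pos hδ.ne' h1, ENNReal.ofReal_toReal_le⟩
  obtain ⟨N₀, hN₀⟩ := h (δ' / 2) (δ' / 8) (by positivity) (by positivity)
  refine ⟨max N₀ Q, fun n hn hG => ?_⟩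
  have h1 := hN₀ n ((le_max_left _ _).trans hn) hG
  have h2 : 0 < n / Q := Nat.div_pos ((le_max_right _ _).trans hn) hQ
  refine le_trans ?_ hδδ
  have h3 : (cnt (fun k => ¬ lin (bad A d) a₀ r₀ k b ≤ ENNReal.ofReal (δ' / 2)) (n / Q) : ℝ) ≤
      δ' / 8 * (n / Q : ℕ) := by
    refine le_trans ?_ h1
    have h4 : cnt (fun k => ¬ lin (bad A d) a₀ r₀ k b ≤ ENNReal.ofReal (δ' / 2)) (n / Q) ≤
        cnt (fun k => ¬ volume {s : ℂ | ‖s‖ < (1 / 2) ^ (k + 1) ∧ a₀ + s • b ∈ bad A d} ≤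
            ENNReal.ofReal (δ' / 2 * ((1 / 2) ^ (k + 1)) ^ 2)) (n / Q) := by
      refine cnt_mono (fun k hk hk2 => hk ?_) _
      unfold lin
      apply ENNReal.div_le_of_le_mul
      rw [← ENNReal.ofReal_mul (by positivity)]
      refine (measure_mono ?_).trans hk2
      rintro s ⟨hs1, hs2⟩
      exact ⟨hs1, hs2.1⟩
    exact_mod_cast h4
  have h5 := avg_cnt (by norm_num : (0 : ℝ) ≤ 4) (by positivity : 0 ≤ δ' / 2)
    (fun k => lin_le (bad A d) a₀ r₀ k b) h3 h2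
  refine h5.trans (ENNReal.ofReal_le_ofReal (le_of_eq ?_))
  ring

end Pool.Agent.H211.LD
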