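import Pool.Graph.R_pool_sql_team_seeded_64922ed1.X325.EP.E

/-! Stability of good points in families with several parameters. -/

set_option autoImplicit false

open Filter Topology Metric Set Polynomial MeasureTheory

namespace Pool.Agent.H211.LD

open Pool.Agent.X325.EP
open Pool.Agent.H792R2 Pool.Agent.H792R2.Dyn

section

variable {E : Type} [NormedAddCommGroup E] [NormedSpace ℂ E]

theorem contDiff_iterE {f : E → ℂ → ℂ} (hf : ContDiff ℂ 1 (fun p : E × ℂ => f p.1 p.2)) (n : ℕ) :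
    ContDiff ℂ 1 (fun p : E × ℂ => (f p.1)^[n] p.2) := by
  induction n with
  | zero => simpa using contDiff_snd
  | succ n ih =>
    have h : (fun p : E × ℂ => (f p.1)^[n + 1] p.2) = fun p => f p.1 ((f p.1)^[n] p.2) := by
      ext p; rw [Function.iterate_succ_apply']
    rw [h]
    exact hf.comp (contDiff_fst.prodMk ih)

theorem diff_rightE {f : E → ℂ → ℂ} (hf : ContDiff ℂ 1 (fun p : E × ℂ => f p.1 p.2)) (a : E) :
    Differentiable ℂ (f a) := by
  have h : ContDiff ℂ 1 (fun z : ℂ => f a z) := hf.comp (contDiff_const.prodMk contDiff_id)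
  exact h.differentiable (by norm_num)

/-- Being attracted or escaping is stable under perturbation of the map and of the point. -/
theorem attr_stableE {f : E → ℂ → ℂ} (hf : ContDiff ℂ 1 (fun p : E × ℂ => f p.1 p.2)) {R ρ : ℝ}
    (hR : 0 < R) (hρ : 0 < ρ)
    (hesc : ∀ a, ‖a‖ < ρ → ∀ z, R ≤ ‖z‖ → 2 * ‖z‖ ≤ ‖f a z‖) {z₀ : ℂ} (h : Attr (f 0) z₀) :
    ∀ᶠ p : E × ℂ in 𝓝 (0, z₀), Attr (f p.1) p.2 := by
  have hdiff : ∀ a, Differentiable ℂ (f a) := diff_rightE hf
  have hsmall : ∀ δ : ℝ, 0 < δ → ∀ᶠ p : E × ℂ in 𝓝 ((0 : E), z₀), ‖p.1‖ < δ := by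
    intro δ hδ
    have hc : Continuous (fun p : E × ℂ => ‖p.1‖) := by fun_prop
    have h0 : ‖(((0 : E), z₀) : E × ℂ).1‖ < δ := by simpa using hδ
    exact (hc.tendsto ((0 : E), z₀)).eventually (Iio_mem_nhds h0)
  rcases h with h | ⟨n, hn, p₀, hfix, hmult, ht⟩
  · obtain ⟨N, hN⟩ := (h.eventually (eventually_gt_atTop R)).exists
    have hc : Continuous (fun p : E × ℂ => ‖(f p.1)^[N] p.2‖) := (contDiff_iterE hf N).continuous.norm
    have h1 : ∀ᶠ p : E × ℂ in 𝓝 ((0 : E), z₀), R < ‖(f p.1)^[N] p.2‖ :=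
      (hc.tendsto ((0 : E), z₀)).eventually (Ioi_mem_nhds hN)
    filter_upwards [h1, hsmall ρ hρ] with p hp1 hp2
    exact attr_large (hdiff _) hR (hesc p.1 hp2) N hp1.le
  · -- the sink case
    set G : E × ℂ → ℂ := fun p => (f p.1)^[n] p.2 with hG
    have hGc : ContDiff ℂ 1 G := contDiff_iterE hf n
    have hGd : ∀ a z, HasDerivAt ((f a)^[n]) (fderiv ℂ G (a, z) (0, 1)) z := by
      intro a z
      have h1 : HasFDerivAt G (fderiv ℂ G (a, z)) (a, z) :=
        (hGc.differentiable (by norm_num) _).hasFDerivAt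
      have h2 : HasDerivAt (fun w : ℂ => ((a, w) : E × ℂ)) ((0, 1) : E × ℂ) z :=
        (hasDerivAt_const z a).prodMk (hasDerivAt_id z)
      exact h1.comp_hasDerivAt z h2
    have hDc : Continuous (fun p : E × ℂ => fderiv ℂ G p (0, 1)) :=
      (hGc.continuous_fderiv (by norm_num)).clm_apply continuous_const
    obtain ⟨lam, hlam1, hlam2⟩ := exists_between hmult
    have hlam0 : 0 ≤ lam := (norm_nonneg _).trans hlam1.le
    have hD0 : ‖fderiv ℂ G ((0 : E), p₀) (0, 1)‖ < lam := by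
      rw [← (hGd 0 p₀).deriv]; exact hlam1
    have hev : ∀ᶠ p : E × ℂ in 𝓝 ((0 : E), p₀), ‖fderiv ℂ G p (0, 1)‖ < lam :=
      (hDc.norm.tendsto ((0 : E), p₀)).eventually (Iio_mem_nhds hD0)
    obtain ⟨η₀, hη₀, hball⟩ := Metric.mem_nhds_iff.1 hev
    set η := η₀ / 2 with hη
    have hηpos : 0 < η := by rw [hη]; linarith
    have hDη : ∀ a z, ‖a‖ < η₀ → z ∈ closedBall p₀ η → ‖deriv ((f a)^[n]) z‖ ≤ lam := by
      intro a z ha hz
      rw [(hGd a z).deriv]
      refine le_of_lt (hball ?_)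
      rw [mem_ball, Prod.dist_eq, max_lt_iff]
      refine ⟨by simpa using ha, ?_⟩
      rw [mem_closedBall] at hz
      exact lt_of_le_of_lt hz (by rw [hη]; linarith)
    -- displacement of the centre
    have hdisp : ∀ᶠ a : E in 𝓝 0, ‖(f a)^[n] p₀ - p₀‖ < (1 - lam) * η := by
      have hc : Continuous (fun a : E => ‖(f a)^[n] p₀ - p₀‖) := by
        have : Continuous (fun a : E => G (a, p₀)) := hGc.continuous.comp (by fun_prop)
        exact (this.sub continuous_const).norm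
      have h0 : ‖(f 0)^[n] p₀ - p₀‖ < (1 - lam) * η := by
        rw [hfix, sub_self, norm_zero]
        exact mul_pos (by linarith) hηpos
      exact (hc.tendsto 0).eventually (Iio_mem_nhds h0)
    obtain ⟨δ₁, hδ₁, hδ₁'⟩ := Metric.mem_nhds_iff.1 hdisp
    have hmap : ∀ a, ‖a‖ < min η₀ δ₁ → MapsTo ((f a)^[n]) (closedBall p₀ η) (closedBall p₀ η) ∧
        LipschitzOnWith ⟨lam, hlam0⟩ ((f a)^[n]) (closedBall p₀ η) := by
      intro a ha
      have ha1 : ‖a‖ < η₀ := lt_of_lt_of_le ha (min_le_left _ _)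
      have ha2 : ‖a‖ < δ₁ := lt_of_lt_of_le ha (min_le_right _ _)
      have hL : LipschitzOnWith ⟨lam, hlam0⟩ ((f a)^[n]) (closedBall p₀ η) := by
        apply (convex_closedBall p₀ η).lipschitzOnWith_of_nnnorm_deriv_le
          (fun z _ => ((hdiff a).iterate n) z)
        intro z hz
        have := hDη a z ha1 hz
        exact_mod_cast this
      refine ⟨?_, hL⟩
      intro z hz
      have h1 := hL.dist_le_mul z hz p₀ (mem_closedBall_self hηpos.le)
      have h2 : dist ((f a)^[n] p₀) p₀ < (1 - lam) * η := by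
        rw [dist_eq_norm]
        have : a ∈ ball (0 : E) δ₁ := by simpa using ha2
        exact hδ₁' this
      rw [mem_closedBall] at hz ⊢
      have h3 : dist ((f a)^[n] z) p₀ ≤ dist ((f a)^[n] z) ((f a)^[n] p₀) + dist ((f a)^[n] p₀) p₀ :=
        dist_triangle _ _ _
      have h4 : ((⟨lam, hlam0⟩ : NNReal) : ℝ) * dist z p₀ ≤ lam * η := by
        change lam * dist z p₀ ≤ lam * η
        exact mul_le_mul_of_nonneg_left hz hlam0
      have h5 : (1 - lam) * η + lam * η = η := by ring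
      have h6 : dist ((f a)^[n] z) ((f a)^[n] p₀) ≤ lam * η := h1.trans h4
      linarith
    -- entering time
    obtain ⟨K, hK⟩ := (ht.eventually (Metric.ball_mem_nhds p₀ hηpos)).exists
    have hc : Continuous (fun p : E × ℂ => (f p.1)^[n * K] p.2) := (contDiff_iterE hf _).continuous
    have h1 : ∀ᶠ p : E × ℂ in 𝓝 ((0 : E), z₀), (f p.1)^[n * K] p.2 ∈ ball p₀ η :=
      (hc.tendsto ((0 : E), z₀)).eventually (isOpen_ball.mem_nhds hK)
    filter_upwards [h1, hsmall (min η₀ δ₁) (lt_min hη₀ hδ₁)] with p hp1 hp2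
    obtain ⟨hmaps, hL⟩ := hmap p.1 hp2
    have hcontr : ContractingWith ⟨lam, hlam0⟩ (hmaps.restrict ((f p.1)^[n]) _ _) := by
      refine ⟨?_, hL.mapsToRestrict hmaps⟩
      exact_mod_cast hlam2
    obtain ⟨y, hys, hyf, hyt, -⟩ := hcontr.exists_fixedPoint' (isClosed_closedBall.isComplete)
      hmaps (ball_subset_closedBall hp1) (edist_ne_top _ _)
    right
    refine ⟨n, hn, y, hyf, lt_of_le_of_lt (hDη p.1 y (lt_of_lt_of_le hp2 (min_le_left _ _)) hys)
      hlam2, ?_⟩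
    rw [← tendsto_add_atTop_iff_nat K]
    have h3 : (fun k : ℕ => (f p.1)^[n * (k + K)] p.2) =
        fun k : ℕ => ((f p.1)^[n])^[k] ((f p.1)^[n * K] p.2) := by
      ext k
      rw [← Function.iterate_mul, ← Function.iterate_add_apply, Nat.mul_add]
    rw [h3]
    exact hyt


/-- the properties of the notion of good point used in the proof -/
structure PredE (A : (ℂ → ℂ) → ℂ → Prop) : Prop extends Pred A where
  stableE : ∀ {n : ℕ} {f : (Fin n → ℂ) → ℂ → ℂ},
    ContDiff ℂ 1 (fun p : (Fin n → ℂ) × ℂ => f p.1 p.2) → ∀ {R ρ : ℝ}, 0 < R →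
    0 < ρ → (∀ a, ‖a‖ < ρ → ∀ z, R ≤ ‖z‖ → 2 * ‖z‖ ≤ ‖f a z‖) → ∀ {z₀ : ℂ}, A (f 0) z₀ →
      ∀ᶠ p : (Fin n → ℂ) × ℂ in 𝓝 (0, z₀), A (f p.1) p.2

end

theorem predE_attr : PredE Dyn.Attr where
  toPred := pred_attr
  stableE := fun hf _ _ hR hρ hesc _ h => attr_stableE hf hR hρ hesc h

theorem predE_escape : PredE (fun (g : ℂ → ℂ) (z : ℂ) =>
    Tendsto (fun k : ℕ => ‖g^[k] z‖) atTop atTop) where
  toPred := pred_escape
  stableE := by
    intro n f hf R ρ hR hρ hesc z₀ h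
    obtain ⟨N, hN⟩ := (h.eventually (eventually_gt_atTop R)).exists
    have hc : Continuous (fun p : (Fin n → ℂ) × ℂ => ‖(f p.1)^[N] p.2‖) :=
      (contDiff_iterE hf N).continuous.norm
    have h1 : ∀ᶠ p : (Fin n → ℂ) × ℂ in 𝓝 ((0 : Fin n → ℂ), z₀), R < ‖(f p.1)^[N] p.2‖ :=
      (hc.tendsto ((0 : Fin n → ℂ), z₀)).eventually (Ioi_mem_nhds hN)
    have h2 : ∀ᶠ p : (Fin n → ℂ) × ℂ in 𝓝 ((0 : Fin n → ℂ), z₀), ‖p.1‖ < ρ := by
      have hc : Continuous (fun p : (Fin n → ℂ) × ℂ => ‖p.1‖) := by fun_prop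
      have h0 : ‖(((0 : Fin n → ℂ), z₀) : (Fin n → ℂ) × ℂ).1‖ < ρ := by simpa using hρ
      exact (hc.tendsto ((0 : Fin n → ℂ), z₀)).eventually (Iio_mem_nhds h0)
    filter_upwards [h1, h2] with p hp1 hp2
    have h3 := Dyn.attr_of_large hR (hesc p.1 hp2) hp1.le
    rw [← tendsto_add_atTop_iff_nat N]
    refine h3.congr fun k => ?_
    rw [← Function.iterate_add_apply]

/-- the polynomial function with the coefficients `a` -/
def ev {n : ℕ} (a : Fin n → ℂ) (z : ℂ) : ℂ := ∑ i, a i * z ^ (i : ℕ)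

/-- the polynomial with the coefficients `a` -/
noncomputable def pol {n : ℕ} (a : Fin n → ℂ) : ℂ[X] := ∑ i : Fin n, C (a i) * X ^ (i : ℕ)

theorem pol_eval {n : ℕ} (a : Fin n → ℂ) (z : ℂ) : (pol a).eval z = ev a z := by
  simp [pol, ev, eval_finsetSum]

theorem pol_coeff {n : ℕ} (a : Fin n → ℂ) (j : ℕ) :
    (pol a).coeff j = if h : j < n then a ⟨j, h⟩ else 0 := by
  classical
  simp only [pol, finsetSum_coeff, coeff_C_mul, coeff_X_pow, mul_ite, mul_one, mul_zero]
  split_ifs with h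
  · rw [Finset.sum_eq_single ⟨j, h⟩]
    · simp
    · intro i _ hi
      rw [if_neg]
      intro h2
      exact hi (Fin.ext h2.symm)
    · intro h2
      exact absurd (Finset.mem_univ _) h2
  · apply Finset.sum_eq_zero
    intro i _
    rw [if_neg]
    intro h2
    exact h (by rw [h2]; exact i.2)

theorem pol_add_smul {n : ℕ} (a b : Fin n → ℂ) (s : ℂ) :
    pol (a + s • b) = pol a + C s * pol b := by
  simp only [pol, Finset.mul_sum, ← Finset.sum_add_distrib]
  refine Finset.sum_congr rfl fun i _ => ?_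
  simp only [Pi.add_apply, Pi.smul_apply, smul_eq_mul, map_add, map_mul]
  ring

theorem pol_natDegree_le {d : ℕ} (a : Fin (d + 1) → ℂ) : (pol a).natDegree ≤ d := by
  rw [natDegree_le_iff_coeff_eq_zero]
  intro m hm
  rw [pol_coeff, dif_neg (by omega)]

theorem pol_natDegree {d : ℕ} {a : Fin (d + 1) → ℂ} (h : a (Fin.last d) ≠ 0) :
    (pol a).natDegree = d := by
  refine le_antisymm (pol_natDegree_le a) (le_natDegree_of_ne_zero ?_)
  rw [pol_coeff, dif_pos (by omega)]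
  exact h

theorem ev_contDiff {n : ℕ} : ContDiff ℂ 1 (fun p : (Fin n → ℂ) × ℂ => ev p.1 p.2) := by
  unfold ev
  refine ContDiff.sum fun i _ => ?_
  refine ContDiff.mul ?_ (contDiff_snd.pow _)
  exact (contDiff_apply ℂ ℂ i).comp contDiff_fst

theorem deriv_ev {n : ℕ} (a : Fin n → ℂ) (z : ℂ) :
    deriv (ev a) z = (derivative (pol a)).eval z := by
  have h : ev a = fun z => (pol a).eval z := by
    funext z
    rw [pol_eval]
  rw [h, Polynomial.deriv]

theorem cont_deriv_ev {n : ℕ} : Continuous (fun p : (Fin n → ℂ) × ℂ => deriv (ev p.1) p.2) := by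
  have h : (fun p : (Fin n → ℂ) × ℂ => deriv (ev p.1) p.2) =
      fun p : (Fin n → ℂ) × ℂ => ∑ i : Fin n, p.1 i * ((i : ℕ) * p.2 ^ ((i : ℕ) - 1)) := by
    funext p
    rw [deriv_ev]
    simp only [pol, derivative_sum, derivative_C_mul, derivative_X_pow, eval_finsetSum, eval_mul,
      eval_C, eval_pow, eval_X]
  rw [h]
  fun_prop

/-- locally uniform escape radius -/
theorem ev_escape {d : ℕ} (hd : 2 ≤ d) {a : Fin (d + 1) → ℂ} (h : a (Fin.last d) ≠ 0) :
    ∃ R ρ : ℝ, 0 < R ∧ 0 < ρ ∧ ∀ b : Fin (d + 1) → ℂ, ‖b‖ < ρ → ∀ z, R ≤ ‖z‖ →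
      2 * ‖z‖ ≤ ‖ev (a + b) z‖ := by
  obtain ⟨R, hR1, hR⟩ := Dyn.escape_radius (d := d) hd (ℓ := ‖a (Fin.last d)‖ / 2)
    (A := ‖a‖ + 1) (by positivity) (by positivity)
  refine ⟨R, min 1 (‖a (Fin.last d)‖ / 2), by linarith, by positivity, ?_⟩
  intro b hb z hz
  rw [← pol_eval]
  refine hR _ (pol_natDegree_le _) ?_ ?_ z hz
  · rw [pol_coeff, dif_pos (by omega)]
    have h1 : ‖b (Fin.last d)‖ ≤ ‖b‖ := norm_le_pi_norm b _
    have h2 : ‖b‖ < ‖a (Fin.last d)‖ / 2 := hb.trans_le (min_le_right _ _)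
    have h3 : ‖a (Fin.last d)‖ - ‖b (Fin.last d)‖ ≤ ‖a (Fin.last d) + b (Fin.last d)‖ := by
      have := norm_sub_norm_le (a (Fin.last d)) (-b (Fin.last d))
      rwa [norm_neg, sub_neg_eq_add] at this
    change ‖a (Fin.last d)‖ / 2 ≤ ‖a (Fin.last d) + b (Fin.last d)‖
    linarith
  · intro i
    rw [pol_coeff]
    split_ifs with hi
    · refine (norm_le_pi_norm (a + b) _).trans ((norm_add_le _ _).trans ?_)
      have := hb.trans_le (min_le_left _ _)
      linarith
    · rw [norm_zero]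
      positivity

/-- the good polynomials form an open set -/
theorem good_open {A : (ℂ → ℂ) → ℂ → Prop} (hA : PredE A) {d : ℕ} (hd : 2 ≤ d) :
    IsOpen {a : Fin (d + 1) → ℂ | a (Fin.last d) ≠ 0 ∧
      ∀ c, deriv (ev a) c = 0 → A (ev a) c} := by
  rw [isOpen_iff_mem_nhds]
  rintro a ⟨ha, hgood⟩
  obtain ⟨R, ρ, hR, hρ, hesc⟩ := ev_escape hd ha
  have hall : ∀ᶠ b : Fin (d + 1) → ℂ in 𝓝 0, ∀ z ∈ closedBall (0 : ℂ) R,
      A (ev (a + b)) z ∨ deriv (ev (a + b)) z ≠ 0 := by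
    refine (isCompact_closedBall (0 : ℂ) R).eventually_forall_of_forall_eventually fun z _ => ?_
    by_cases hz : deriv (ev a) z = 0
    · have h1 := hA.stableE (f := fun b => ev (a + b)) (by
        exact ev_contDiff.comp ((contDiff_const.add contDiff_fst).prodMk contDiff_snd))
        hR hρ hesc (z₀ := z) (by
          simp only [add_zero]
          exact hgood z hz)
      filter_upwards [h1] with p hp
      exact Or.inl hp
    · have h1 : Continuous (fun p : (Fin (d + 1) → ℂ) × ℂ => deriv (ev (a + p.1)) p.2) :=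
        cont_deriv_ev.comp (by fun_prop : Continuous fun p : (Fin (d + 1) → ℂ) × ℂ =>
          (a + p.1, p.2))
      have h2 : ∀ᶠ p : (Fin (d + 1) → ℂ) × ℂ in 𝓝 (0, z), deriv (ev (a + p.1)) p.2 ≠ 0 := by
        refine h1.continuousAt.eventually_ne ?_
        simpa using hz
      filter_upwards [h2] with p hp
      exact Or.inr hp
  have hlead : ∀ᶠ b : Fin (d + 1) → ℂ in 𝓝 0, (a + b) (Fin.last d) ≠ 0 := by
    have h1 : Continuous (fun b : Fin (d + 1) → ℂ => (a + b) (Fin.last d)) := by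
      simp only [Pi.add_apply]
      fun_prop
    refine h1.continuousAt.eventually_ne ?_
    simpa using ha
  have hb : ∀ᶠ b : Fin (d + 1) → ℂ in 𝓝 0, ‖b‖ < ρ := by
    filter_upwards [ball_mem_nhds (0 : Fin (d + 1) → ℂ) hρ] with b hb
    simpa using hb
  have hgd : ∀ᶠ b : Fin (d + 1) → ℂ in 𝓝 0, (a + b) ∈ {a : Fin (d + 1) → ℂ |
      a (Fin.last d) ≠ 0 ∧ ∀ c, deriv (ev a) c = 0 → A (ev a) c} := by
    filter_upwards [hall, hlead, hb] with b h1 h2 h3
    refine ⟨h2, fun c hc => ?_⟩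
    by_cases hcR : ‖c‖ ≤ R
    · rcases h1 c (mem_closedBall_zero_iff.2 hcR) with h | h
      · exact h
      · exact absurd hc h
    · push Not at hcR
      exact hA.large (Dyn.attr_of_large hR (hesc b h3) hcR.le)
  have htr : Tendsto (fun x : Fin (d + 1) → ℂ => x - a) (𝓝 a) (𝓝 0) := by
    have : Continuous (fun x : Fin (d + 1) → ℂ => x - a) := by fun_prop
    simpa using this.tendsto a
  have := htr.eventually hgd
  filter_upwards [this] with x hx
  simpa using hx

end Pool.Agent.H211.LD
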