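import Pool.Agent.H211.LD.Main
import Pool.Agent.H211.LD.Stab

/-! Averaging over the directions. -/

set_option autoImplicit false

open Filter Topology Metric Set MeasureTheory
open scoped ENNReal Pointwise

namespace Pool.Agent.H211.LD

/-- multiplication by a complex number -/
noncomputable def mulL (n : ℕ) (s : ℂ) : (Fin n → ℂ) →ₗ[ℝ] (Fin n → ℂ) where
  toFun b := s • b
  map_add' := smul_add s
  map_smul' t b := by
    funext i
    simp only [Pi.smul_apply, smul_eq_mul, Complex.real_smul, RingHom.id_apply]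
    ring

theorem mulL_det {n : ℕ} {s : ℂ} (hs : s ≠ 0) :
    ENNReal.ofReal |LinearMap.det (mulL n s)| =
      ENNReal.ofReal (‖s‖ ^ Module.finrank ℝ (Fin n → ℂ)) := by
  have h1 := Measure.addHaar_image_linearMap (volume : Measure (Fin n → ℂ)) (mulL n s)
    (ball 0 1)
  have hs0 : 0 < ‖s‖ := norm_pos_iff.2 hs
  have h2 : mulL n s '' ball 0 1 = ball (0 : Fin n → ℂ) ‖s‖ := by
    ext x
    constructor
    · rintro ⟨b, hb, rfl⟩
      rw [mem_ball_zero_iff] at hb ⊢
      change ‖s • b‖ < ‖s‖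
      rw [norm_smul]
      nlinarith
    · intro hx
      rw [mem_ball_zero_iff] at hx
      refine ⟨s⁻¹ • x, ?_, ?_⟩
      · rw [mem_ball_zero_iff, norm_smul, norm_inv, inv_mul_lt_iff₀ hs0, mul_one]
        exact hx
      · change s • s⁻¹ • x = x
        rw [smul_inv_smul₀ hs]
  rw [h2, Measure.addHaar_ball_of_pos _ _ hs0] at h1
  have h3 : (volume : Measure (Fin n → ℂ)) (ball 0 1) ≠ 0 :=
    (measure_ball_pos _ _ one_pos).ne'
  have h4 : (volume : Measure (Fin n → ℂ)) (ball 0 1) ≠ ⊤ := measure_ball_lt_top.ne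
  exact ((ENNReal.mul_left_inj h3 h4).1 h1).symm

/-- the volume of a set of small vectors, seen from the unit ball -/
theorem scale_vol {n : ℕ} {M : Set (Fin n → ℂ)} {r : ℝ} {s : ℂ}
    (h1 : r / 2 < ‖s‖) (h2 : ‖s‖ < r) :
    volume (M ∩ ball 0 (r / 2)) ≤ ENNReal.ofReal (r ^ Module.finrank ℝ (Fin n → ℂ)) *
      volume {b : Fin n → ℂ | ‖b‖ < 1 ∧ s • b ∈ M} := by
  have hr : 0 < r := by linarith
  have hs0 : 0 < ‖s‖ := by linarith
  have hs : s ≠ 0 := norm_pos_iff.1 hs0
  have h3 : M ∩ ball 0 (r / 2) ⊆ mulL n s '' {b : Fin n → ℂ | ‖b‖ < 1 ∧ s • b ∈ M} := by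
    rintro x ⟨hx1, hx2⟩
    rw [mem_ball_zero_iff] at hx2
    have h4 : s • s⁻¹ • x = x := smul_inv_smul₀ hs x
    refine ⟨s⁻¹ • x, ⟨?_, ?_⟩, h4⟩
    · rw [norm_smul, norm_inv, inv_mul_lt_iff₀ hs0, mul_one]
      linarith
    · rw [h4]
      exact hx1
  refine (measure_mono h3).trans ?_
  rw [Measure.addHaar_image_linearMap, mulL_det hs]
  gcongr

/-- **Averaging over the directions.** -/
theorem average {n : ℕ} {M : Set (Fin n → ℂ)} (hM : MeasurableSet M) {r : ℝ} (hr : 0 < r) :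
    ENNReal.ofReal (r ^ 2) * volume (M ∩ ball 0 (r / 2)) ≤
      ENNReal.ofReal (16 * r ^ Module.finrank ℝ (Fin n → ℂ)) *
        ∫⁻ b in ball (0 : Fin n → ℂ) 1, volume {s : ℂ | ‖s‖ < r ∧ s • b ∈ M} := by
  -- the set in the product
  set S : Set ((Fin n → ℂ) × ℂ) := {p | ‖p.1‖ < 1 ∧ ‖p.2‖ < r ∧ p.2 • p.1 ∈ M} with hS
  have hSm : MeasurableSet S := by
    have h0 : Measurable (fun p : (Fin n → ℂ) × ℂ => ‖p.1‖) := by fun_prop
    have h0' : Measurable (fun p : (Fin n → ℂ) × ℂ => ‖p.2‖) := by fun_prop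
    have h1 : Measurable (fun p : (Fin n → ℂ) × ℂ => p.2 • p.1) := by fun_prop
    exact (measurableSet_lt h0 measurable_const).inter
      ((measurableSet_lt h0' measurable_const).inter (h1 hM))
  have h1 : (volume.prod volume : Measure ((Fin n → ℂ) × ℂ)) S =
      ∫⁻ b in ball (0 : Fin n → ℂ) 1, volume {s : ℂ | ‖s‖ < r ∧ s • b ∈ M} := by
    rw [Measure.prod_apply hSm, ← lintegral_indicator measurableSet_ball]
    refine lintegral_congr fun b => ?_
    by_cases hb : b ∈ ball (0 : Fin n → ℂ) 1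
    · rw [indicator_of_mem hb]
      rw [mem_ball_zero_iff] at hb
      congr 1
      ext s
      simp only [hS, mem_preimage, mem_ofPred_eq]
      exact ⟨fun h => h.2, fun h => ⟨hb, h⟩⟩
    · rw [indicator_of_notMem hb]
      rw [mem_ball_zero_iff] at hb
      have h2 : Prod.mk b ⁻¹' S = ∅ := by
        rw [eq_empty_iff_forall_notMem]
        intro s hs
        exact hb hs.1
      rw [h2, measure_empty]
  have h2 : (volume.prod volume : Measure ((Fin n → ℂ) × ℂ)) S =
      ∫⁻ s : ℂ, volume {b : Fin n → ℂ | (b, s) ∈ S} := by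
    rw [Measure.prod_apply_symm hSm]
    rfl
  rw [← h1, h2]
  set D : Set ℂ := ball (((3 / 4 * r : ℝ)) : ℂ) (r / 4) with hD
  have hDs : ∀ s ∈ D, r / 2 < ‖s‖ ∧ ‖s‖ < r := by
    intro s hs
    rw [hD, mem_ball, dist_eq_norm] at hs
    have h3 : ‖((3 / 4 * r : ℝ) : ℂ)‖ = 3 / 4 * r := by
      rw [Complex.norm_real, Real.norm_eq_abs, abs_of_pos (by positivity)]
    have h4 := norm_sub_norm_le (((3 / 4 * r : ℝ)) : ℂ) s
    have h5 := norm_sub_norm_le s (((3 / 4 * r : ℝ)) : ℂ)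
    rw [norm_sub_rev] at h4
    constructor <;> linarith
  have h3 : ∫⁻ _ in D, volume (M ∩ ball 0 (r / 2)) ≤
      ENNReal.ofReal (r ^ Module.finrank ℝ (Fin n → ℂ)) *
        ∫⁻ s : ℂ, volume {b : Fin n → ℂ | (b, s) ∈ S} := by
    have hmeas : Measurable fun s : ℂ => volume {b : Fin n → ℂ | (b, s) ∈ S} :=
      measurable_measure_prodMk_right hSm
    rw [← lintegral_const_mul _ hmeas]
    refine (setLIntegral_mono (hmeas.const_mul _) fun s hs => ?_).trans
      (setLIntegral_le_lintegral _ _)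
    obtain ⟨h4, h5⟩ := hDs s hs
    refine (scale_vol h4 h5).trans ?_
    refine mul_le_mul_right (measure_mono fun b hb => ?_) _
    exact ⟨hb.1, h5, hb.2⟩
  rw [setLIntegral_const] at h3
  have h4 : volume D = ENNReal.ofReal (r ^ 2) * ENNReal.ofReal (Real.pi / 16) := by
    rw [hD, Complex.volume_ball, ← ENNReal.ofReal_mul (by positivity),
      ← ENNReal.ofReal_pow (by positivity)]
    have : (NNReal.pi : ℝ≥0∞) = ENNReal.ofReal Real.pi := by
      rw [← NNReal.coe_real_pi, ENNReal.ofReal_coe_nnreal]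
    rw [this, ← ENNReal.ofReal_mul (by positivity)]
    congr 1
    ring
  have h5 : ENNReal.ofReal (r ^ 2) ≤ 16 * volume D := by
    rw [h4]
    have : (16 : ℝ≥0∞) = ENNReal.ofReal 16 := by norm_num
    rw [this, ← ENNReal.ofReal_mul (by positivity), ← ENNReal.ofReal_mul (by positivity)]
    apply ENNReal.ofReal_le_ofReal
    have := Real.pi_gt_three
    nlinarith [sq_nonneg r]
  calc ENNReal.ofReal (r ^ 2) * volume (M ∩ ball 0 (r / 2))
      ≤ 16 * volume D * volume (M ∩ ball 0 (r / 2)) := by gcongr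
    _ = 16 * (volume (M ∩ ball 0 (r / 2)) * volume D) := by ring
    _ ≤ 16 * (ENNReal.ofReal (r ^ Module.finrank ℝ (Fin n → ℂ)) *
        ∫⁻ s : ℂ, volume {b : Fin n → ℂ | (b, s) ∈ S}) := by gcongr
    _ = _ := by
      have : (16 : ℝ≥0∞) = ENNReal.ofReal 16 := by norm_num
      rw [ENNReal.ofReal_mul (by norm_num), this]
      ring

end Pool.Agent.H211.LD
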